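import Pool.Agent.H512.DT.Grid

set_option autoImplicit false
set_option linter.unusedSectionVars false

/-!
MP_257582_lc. The signed number of certain families of sets, and the comparison of two invariant
functions that agree at the fixed points.
-/

namespace Pool.Agent.H512.DT

open Finset
open Pool.Agent.TH669.KP (sgn bit bit_pos bit_neg bit_congr toggle_zero sum_sgn)

theorem sum_sub {J : Type} [Fintype J] [DecidableEq J] {D : J → Prop} (hD : ∃ j, D j) :
    ∑ χ : J → Bool, sgn χ * bit (∀ j, χ j = true → D j) = 0 := by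
  obtain ⟨j, hj⟩ := hD
  refine toggle_zero (fun χ => bit (∀ j, χ j = true → D j)) j fun χ => bit_congr ?_
  constructor
  · intro h i hi
    by_cases hij : i = j
    · exact hij ▸ hj
    · exact h i (by rwa [Function.update_of_ne hij])
  · intro h i hi
    by_cases hij : i = j
    · exact hij ▸ hj
    · exact h i (by rwa [Function.update_of_ne hij] at hi)

theorem sum_none {J : Type} [Fintype J] [DecidableEq J] :
    ∑ χ : J → Bool, sgn χ * bit (∀ j, ¬ χ j = true) = 1 := by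
  rw [Finset.sum_eq_single (fun _ => false)]
  · rw [bit_pos (fun j => by simp), mul_one]
    unfold sgn
    simp
  · intro χ _ hχ
    rw [bit_neg, mul_zero]
    intro h
    exact hχ (funext fun j => by simpa using h j)
  · intro h
    exact absurd (Finset.mem_univ _) h

/-- neither contained in `B` nor in `D` -/
def Cc {J : Type} (B D : J → Prop) (χ : J → Bool) : Prop :=
  (∃ j, ¬ B j ∧ ¬ D j ∧ χ j = true) ∨ ((∃ j, B j ∧ χ j = true) ∧ ∃ j, D j ∧ χ j = true)

theorem sum_Cc {J : Type} [Fintype J] [DecidableEq J] {B D : J → Prop} (hB : ∃ j, B j)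
    (hD : ∃ j, D j) (hBD : ∀ j, B j → ¬ D j) :
    ∑ χ : J → Bool, sgn χ * bit (Cc B D χ) = 1 := by
  have : Nonempty J := ⟨hB.choose⟩
  have key : ∀ χ : J → Bool, bit (Cc B D χ) = 1 - bit (∀ j, χ j = true → D j) -
      bit (∀ j, χ j = true → B j) + bit (∀ j, ¬ χ j = true) := by
    intro χ
    by_cases h1 : ∀ j, χ j = true → D j
    · by_cases h2 : ∀ j, χ j = true → B j
      · have h3 : ∀ j, ¬ χ j = true := fun j hj => hBD j (h2 j hj) (h1 j hj)
        rw [bit_pos h1, bit_pos h2, bit_pos h3, bit_neg]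
        · norm_num
        · rintro (⟨j, -, -, hj⟩ | ⟨⟨j, -, hj⟩, -⟩)
          · exact h3 j hj
          · exact h3 j hj
      · have h3 : ¬ ∀ j, ¬ χ j = true := fun h => h2 fun j hj => absurd hj (h j)
        rw [bit_pos h1, bit_neg h2, bit_neg h3, bit_neg]
        · norm_num
        · rintro (⟨j, -, h4, hj⟩ | ⟨⟨j, h4, hj⟩, -⟩)
          · exact h4 (h1 j hj)
          · exact hBD j h4 (h1 j hj)
    · by_cases h2 : ∀ j, χ j = true → B j
      · have h3 : ¬ ∀ j, ¬ χ j = true := fun h => h1 fun j hj => absurd hj (h j)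
        rw [bit_neg h1, bit_pos h2, bit_neg h3, bit_neg]
        · norm_num
        · rintro (⟨j, h4, -, hj⟩ | ⟨-, ⟨j, h4, hj⟩⟩)
          · exact h4 (h2 j hj)
          · exact hBD j (h2 j hj) h4
      · have h3 : ¬ ∀ j, ¬ χ j = true := fun h => h1 fun j hj => absurd hj (h j)
        rw [bit_neg h1, bit_neg h2, bit_neg h3, bit_pos]
        · norm_num
        · push Not at h1 h2
          obtain ⟨i, hi, hi'⟩ := h1
          obtain ⟨j, hj, hj'⟩ := h2
          by_cases h5 : B i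
          · by_cases h6 : D j
            · exact Or.inr ⟨⟨i, h5, hi⟩, ⟨j, h6, hj⟩⟩
            · exact Or.inl ⟨j, hj', h6, hj⟩
          · exact Or.inl ⟨i, h5, hi', hi⟩
  simp only [key, mul_add, mul_sub, mul_one, Finset.sum_add_distrib, Finset.sum_sub_distrib]
  rw [sum_sgn, sum_sub hD, sum_sub hB, sum_none]
  norm_num

theorem sum_some {J : Type} [Fintype J] [DecidableEq J] [Nonempty J] :
    ∑ χ : J → Bool, sgn χ * bit (∃ j, χ j = true) = -1 := by
  have key : ∀ χ : J → Bool, bit (∃ j, χ j = true) = 1 - bit (∀ j, ¬ χ j = true) := by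
    intro χ
    by_cases h : ∃ j, χ j = true
    · rw [bit_pos h, bit_neg (fun h1 => by obtain ⟨j, hj⟩ := h; exact h1 j hj)]
      norm_num
    · rw [bit_neg h, bit_pos (fun j hj => h ⟨j, hj⟩)]
      norm_num
  simp only [key, mul_sub, mul_one, Finset.sum_sub_distrib]
  rw [sum_sgn, sum_none]
  norm_num

theorem contra {X : Type} [Fintype X] [DecidableEq X] {l k : ℕ} [Fact l.Prime] (S : X → X)
    (hS : S^[l ^ k] = id) (f g : X → ℤ) (hf : ∀ x, f (S x) = f x) (hg : ∀ x, g (S x) = g x)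
    (hrel : ∑ x, f x = 0) (hfix : ∀ x, S x = x → f x = g x) : (∑ x, g x) ≡ 0 [ZMOD l] := by
  have h1 := fix_modEq S hS f hf
  have h2 := fix_modEq S hS g hg
  rw [hrel] at h1
  refine h2.trans ?_
  rw [← Finset.sum_congr rfl (fun x hx => hfix x (Finset.mem_filter.1 hx).2)]
  exact h1.symm

/-- the difference of `s` and `t` is up to sign a power of `u` -/
def Near {p : ℕ} (u : (ZMod p)ˣ) (s t : ZMod p) : Prop :=
  ∃ j : ℕ, s = t + (u : ZMod p) ^ j ∨ t = s + (u : ZMod p) ^ j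

theorem Near.symm {p : ℕ} {u : (ZMod p)ˣ} {s t : ZMod p} (h : Near u s t) : Near u t s := by
  obtain ⟨j, hj⟩ := h
  exact ⟨j, hj.symm⟩

theorem Near.ne {p : ℕ} [Fact p.Prime] {u : (ZMod p)ˣ} {s t : ZMod p} (h : Near u s t) : s ≠ t := by
  rintro rfl
  obtain ⟨j, hj⟩ := h
  have h1 : (u : ZMod p) ^ j = 0 := by
    rcases hj with hj | hj
    · exact (left_eq_add.1 hj)
    · exact (left_eq_add.1 hj)
  exact (Units.ne_zero u) (pow_eq_zero_iff (n := j) (by
    rintro rfl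
    simp at h1) |>.1 h1)

/-- tensor product with the complete graph on `q` vertices; the vertex `v` has the coordinates
`v / q` and `v % q` -/
def tens (n q : ℕ) {p : ℕ} (u : (ZMod p)ˣ) : SimpleGraph (Fin n) where
  Adj v w := v.1 < p * q ∧ w.1 < p * q ∧ Near u ((v.1 / q : ℕ) : ZMod p) ((w.1 / q : ℕ) : ZMod p) ∧
    v.1 % q ≠ w.1 % q
  symm := ⟨fun _ _ h => ⟨h.2.1, h.1, h.2.2.1.symm, h.2.2.2.symm⟩⟩
  loopless := ⟨fun _ h => h.2.2.2 rfl⟩

/-- cartesian product -/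
def box (n q : ℕ) {p : ℕ} (u : (ZMod p)ˣ) : SimpleGraph (Fin n) where
  Adj v w := v ≠ w ∧ v.1 < p * q ∧ w.1 < p * q ∧ (v.1 / q = w.1 / q ∨
    (Near u ((v.1 / q : ℕ) : ZMod p) ((w.1 / q : ℕ) : ZMod p) ∧ v.1 % q = w.1 % q))
  symm := ⟨fun _ _ h => ⟨h.1.symm, h.2.2.1, h.2.1, h.2.2.2.imp Eq.symm fun h1 =>
    ⟨h1.1.symm, h1.2.symm⟩⟩⟩
  loopless := ⟨fun _ h => h.1 rfl⟩

/-- `p` complete graphs on `q` vertices -/
def rows (n q p : ℕ) : SimpleGraph (Fin n) where
  Adj v w := v ≠ w ∧ v.1 < p * q ∧ w.1 < p * q ∧ v.1 / q = w.1 / q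
  symm := ⟨fun _ _ h => ⟨h.1.symm, h.2.2.1, h.2.1, h.2.2.2.symm⟩⟩
  loopless := ⟨fun _ h => h.1 rfl⟩

/-- `q` complete graphs on `p` vertices -/
def cols (n q p : ℕ) : SimpleGraph (Fin n) where
  Adj v w := v ≠ w ∧ v.1 < p * q ∧ w.1 < p * q ∧ v.1 % q = w.1 % q
  symm := ⟨fun _ _ h => ⟨h.1.symm, h.2.2.1, h.2.1, h.2.2.2.symm⟩⟩
  loopless := ⟨fun _ h => h.1 rfl⟩

/-- `q` copies of the circulant graph -/
def cops (n q : ℕ) {p : ℕ} (u : (ZMod p)ˣ) : SimpleGraph (Fin n) where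
  Adj v w := v ≠ w ∧ v.1 < p * q ∧ w.1 < p * q ∧
    Near u ((v.1 / q : ℕ) : ZMod p) ((w.1 / q : ℕ) : ZMod p) ∧ v.1 % q = w.1 % q
  symm := ⟨fun _ _ h => ⟨h.1.symm, h.2.2.1, h.2.1, h.2.2.2.1.symm, h.2.2.2.2.symm⟩⟩
  loopless := ⟨fun _ h => h.1 rfl⟩

/-- the star -/
def star (n : ℕ) : SimpleGraph (Fin n) where
  Adj v w := v ≠ w ∧ (v.1 + 1 = n ∨ w.1 + 1 = n)
  symm := ⟨fun _ _ h => ⟨h.1.symm, h.2.symm⟩⟩
  loopless := ⟨fun _ h => h.1 rfl⟩

end Pool.Agent.H512.DT
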