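import Pool.Agent.H512.DT.Abs

set_option autoImplicit false
set_option linter.unusedSectionVars false

/-!
MP_257582_lc. `p` copies of a group and at most one further vertex; the cyclic permutation of the copies.
-/

namespace Pool.Agent.H512.DT

open Finset
open Pool.Agent.H119R2.Kp (GP PV pve_map_adj)
open Pool.Agent.TH669.KP (GR GR_adj sgn bit bit_pos bit_neg bit_congr)
open Pool.Agent.H512.BD (VV JJ EE GC pr pr_swap pr_eq_iff pr_exists sV sE sJ GC_sJ sgn_comp)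

/-- coordinates modulo `p` -/
def ka (p : ℕ) [NeZero p] : Fin p ≃ ZMod p where
  toFun s := ((s.1 : ℕ) : ZMod p)
  invFun z := ⟨z.val, ZMod.val_lt z⟩
  left_inv s := Fin.ext (ZMod.val_natCast_of_lt s.2)
  right_inv z := ZMod.natCast_zmod_val z

/-- translation of the copies -/
def sh (p : ℕ) [NeZero p] (z : ZMod p) : Equiv.Perm (Fin p) :=
  ((ka p).trans (Equiv.addRight z)).trans (ka p).symm

/-- multiplication of the copies -/
def mu (p : ℕ) [NeZero p] (u : (ZMod p)ˣ) : Equiv.Perm (Fin p) :=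
  ((ka p).trans (Units.mulLeft u)).trans (ka p).symm

theorem ka_sh {p : ℕ} [NeZero p] (z : ZMod p) (s : Fin p) : ka p (sh p z s) = ka p s + z := by
  simp [sh]

theorem ka_mu {p : ℕ} [NeZero p] (u : (ZMod p)ˣ) (s : Fin p) : ka p (mu p u s) = u * ka p s := by
  simp [mu]

variable {p ε : ℕ} {A : Type} [DecidableEq A]

theorem sJ_comp {m : ℕ} (σ τ : Equiv.Perm (Fin m)) (j : JJ m ε) :
    sJ σ (sJ τ j) = sJ (σ * τ) j := by
  rcases j with s | ⟨⟨e, he⟩, b⟩ | ⟨s, i⟩
  · rfl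
  · induction e using Sym2.ind with
    | _ s t => rfl
  · rfl

theorem sJ_one {m : ℕ} (j : JJ m ε) : sJ (1 : Equiv.Perm (Fin m)) j = j := by
  rcases j with s | ⟨⟨e, he⟩, b⟩ | ⟨s, i⟩
  · rfl
  · induction e using Sym2.ind with
    | _ s t => rfl
  · rfl

theorem sh_mul [NeZero p] (z w : ZMod p) : sh p z * sh p w = sh p (z + w) := by
  ext s
  have : (sh p z * sh p w) s = sh p (z + w) s := by
    apply (ka p).injective
    rw [Equiv.Perm.mul_apply, ka_sh, ka_sh, ka_sh]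
    ring
  rw [this]

theorem sh_zero [NeZero p] : sh p 0 = 1 := by
  ext s
  have : sh p 0 s = s := by
    apply (ka p).injective
    rw [ka_sh, add_zero]
  rw [this]
  rfl

theorem iter_sh [NeZero p] (k : ℕ) (χ : JJ p ε → Bool) :
    (fun χ : JJ p ε → Bool => χ ∘ sJ (sh p 1))^[k] χ = χ ∘ sJ (sh p k) := by
  induction k generalizing χ with
  | zero =>
    funext j
    show χ j = χ (sJ (sh p ((0 : ℕ) : ZMod p)) j)
    rw [Nat.cast_zero, sh_zero, sJ_one]
  | succ k ih =>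
    rw [Function.iterate_succ_apply, ih]
    funext j
    show χ (sJ (sh p 1) (sJ (sh p k) j)) = χ (sJ (sh p ((k + 1 : ℕ) : ZMod p)) j)
    rw [sJ_comp, sh_mul, Nat.cast_succ, add_comm]

theorem fix_sh [NeZero p] {χ : JJ p ε → Bool} (h : χ ∘ sJ (sh p 1) = χ) (z : ZMod p) (j : JJ p ε) :
    χ (sJ (sh p z) j) = χ j := by
  have h1 : (fun χ : JJ p ε → Bool => χ ∘ sJ (sh p 1))^[z.val] χ = χ :=
    Function.iterate_fixed h _
  rw [iter_sh, ZMod.natCast_zmod_val] at h1
  exact congrFun h1 j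

/-- an orbit between two copies with the same difference has the same value -/
theorem fix_pr [NeZero p] {χ : JJ p ε → Bool} (h : χ ∘ sJ (sh p 1) = χ) {s t s' t' : Fin p}
    (h1 : s ≠ t) (h2 : s' ≠ t') (h3 : ka p t - ka p s = ka p t' - ka p s') (b : Bool) :
    χ (.inr (.inl (pr s t h1, b))) = χ (.inr (.inl (pr s' t' h2, b))) := by
  rw [← fix_sh h (ka p s' - ka p s) (.inr (.inl (pr s t h1, b)))]
  have e1 : sh p (ka p s' - ka p s) s = s' := by
    apply (ka p).injective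
    rw [ka_sh]
    ring
  have e2 : sh p (ka p s' - ka p s) t = t' := by
    apply (ka p).injective
    rw [ka_sh]
    linear_combination h3
  have h4 : sJ (ε := ε) (sh p (ka p s' - ka p s)) (.inr (.inl (pr s t h1, b))) =
      .inr (.inl (pr (sh p (ka p s' - ka p s) s) (sh p (ka p s' - ka p s) t)
        (fun h5 => h1 ((sh p _).injective h5)), b)) := rfl
  rw [h4]
  congr 4
  rw [pr_eq_iff]
  exact Or.inl ⟨e1, e2⟩

theorem fix_in [NeZero p] {χ : JJ p ε → Bool} (h : χ ∘ sJ (sh p 1) = χ) (s s' : Fin p) :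
    χ (.inl s) = χ (.inl s') := by
  rw [← fix_sh h (ka p s' - ka p s) (.inl s)]
  show χ (.inl (sh p (ka p s' - ka p s) s)) = _
  congr 2
  apply (ka p).injective
  rw [ka_sh]
  ring

theorem fix_out [NeZero p] {χ : JJ p ε → Bool} (h : χ ∘ sJ (sh p 1) = χ) (s s' : Fin p)
    (i : Fin ε) : χ (.inr (.inr (s, i))) = χ (.inr (.inr (s', i))) := by
  rw [← fix_sh h (ka p s' - ka p s) (.inr (.inr (s, i)))]
  show χ (.inr (.inr (sh p (ka p s' - ka p s) s, i))) = _
  congr 4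
  apply (ka p).injective
  rw [ka_sh]
  ring

/-- a difference which is a multiple of another one -/
theorem pr_on [Fact p.Prime] {χ : JJ p ε → Bool} (h : χ ∘ sJ (sh p 1) = χ) {s t : Fin p}
    (h1 : s ≠ t) {b : Bool} (h2 : χ (.inr (.inl (pr s t h1, b))) = true) (d : (ZMod p)ˣ)
    (hd : (d : ZMod p) = ka p t - ka p s) {s' t' : Fin p} (h3 : mu p d s' ≠ mu p d t')
    (h4 : Near 1 (ka p s') (ka p t')) :
    χ (.inr (.inl (pr (mu p d s') (mu p d t') h3, b))) = true := by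
  obtain ⟨j, hj⟩ := h4
  rw [Units.val_one, one_pow] at hj
  rcases hj with hj | hj
  · rw [← h2, pr_swap]
    refine fix_pr h _ _ ?_ b
    rw [ka_mu, ka_mu, hj, ← hd]
    ring
  · rw [← h2]
    refine fix_pr h _ _ ?_ b
    rw [ka_mu, ka_mu, hj, ← hd]
    ring

/-- coordinates of the vertices -/
structure Co (n p q ε : ℕ) (A : Type) where
  e : VV p A ε ≃ Fin n
  f : A ≃ Fin q
  hl : ∀ (s : Fin p) (x : A), (e (.inl (s, x))).1 = (f x).1 + q * s.1
  hr : ∀ i : Fin ε, (e (.inr i)).1 = p * q + i.1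
  hn : n = p * q + ε

theorem exists_co {n p q ε : ℕ} (hn : n = p * q + ε) {A : Type} [Fintype A]
    (hA : Fintype.card A = q) : Nonempty (Co n p q ε A) := by
  let eA : A ≃ Fin q := Fintype.equivFinOfCardEq hA
  let e0 : VV p A ε ≃ Fin (p * q + ε) :=
    (Equiv.sumCongr ((Equiv.prodCongr (Equiv.refl _) eA).trans finProdFinEquiv)
      (Equiv.refl _)).trans finSumFinEquiv
  refine ⟨⟨e0.trans (finCongr hn.symm), eA, ?_, ?_, hn⟩⟩
  · intro s x
    simp [e0, finProdFinEquiv]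
  · intro i
    simp [e0]

namespace Co

variable {n q : ℕ} (K : Co n p q ε A)

theorem div (s : Fin p) (x : A) : (K.e (.inl (s, x))).1 / q = s.1 := by
  have hq : 0 < q := (Nat.zero_le _).trans_lt (K.f x).2
  rw [K.hl, Nat.add_mul_div_left _ _ hq, Nat.div_eq_of_lt (K.f x).2, zero_add]

theorem mod (s : Fin p) (x : A) : (K.e (.inl (s, x))).1 % q = (K.f x).1 := by
  rw [K.hl, Nat.add_mul_mod_self_left, Nat.mod_eq_of_lt (K.f x).2]

theorem lt (s : Fin p) (x : A) : (K.e (.inl (s, x))).1 < p * q := by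
  rw [K.hl]
  have h1 := (K.f x).2
  have h2 := s.2
  have h3 : q * (s.1 + 1) ≤ q * p := Nat.mul_le_mul_left _ h2
  rw [mul_comm p q]
  linarith [h3, h1, Nat.mul_succ q s.1]

theorem inl_of (v : Fin n) (h : v.1 < p * q) : ∃ s x, v = K.e (.inl (s, x)) := by
  obtain ⟨w, rfl⟩ := K.e.surjective v
  rcases w with ⟨s, x⟩ | i
  · exact ⟨s, x, rfl⟩
  · rw [K.hr] at h
    omega

end Co

variable {n q d : ℕ} {P : SimpleGraph (Fin n) → Prop} (hP : GP n d P)

include hP in
theorem PV_self {G : SimpleGraph (Fin n)} : PV P (Fin n) G ↔ P G := by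
  rw [Pool.Agent.H119R2.Kp.RelAux.PV_iff hP (Equiv.refl _)]
  have : G.map (Equiv.refl (Fin n)).toEmbedding = G := by
    ext u v
    rw [pve_map_adj]
    rfl
  rw [this]

include hP in
theorem strong_e [Fact p.Prime] (K : Co n p q ε A) {χ : JJ p ε → Bool}
    (h : χ ∘ sJ (sh p 1) = χ) {e : EE p} (h2 : χ (.inr (.inl (e, false))) = true)
    (h3 : P (tens n q (1 : (ZMod p)ˣ))) : PV P (VV p A ε) (GC A χ) := by
  obtain ⟨s, t, h1, rfl⟩ := pr_exists e
  have h4 : ka p t - ka p s ≠ 0 := sub_ne_zero.2 fun h5 => h1 ((ka p).injective h5.symm)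
  let δ : (ZMod p)ˣ := Units.mk0 _ h4
  refine PV.mono hP (K.e.symm.trans (sV (mu p δ))) ?_ ((PV_self hP).2 h3)
  intro v w hvw
  obtain ⟨hv, hw, hN, hm⟩ := hvw
  obtain ⟨a, x, rfl⟩ := K.inl_of v hv
  obtain ⟨b, y, rfl⟩ := K.inl_of w hw
  rw [K.div, K.div] at hN
  rw [K.mod, K.mod] at hm
  rw [Equiv.trans_apply, Equiv.trans_apply, Equiv.symm_apply_apply, Equiv.symm_apply_apply,
    Pool.Agent.H512.BD.sV_inl, Pool.Agent.H512.BD.sV_inl, GR_adj]
  have hab : mu p δ a ≠ mu p δ b := fun h5 => hN.ne (by rw [(mu p δ).injective h5])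
  refine ⟨_, Pool.Agent.H512.BD.orb_diff hab x y, ?_⟩
  rw [decide_eq_false (fun h5 => hm (by rw [h5]))]
  exact pr_on h h1 h2 δ rfl hab hN

include hP in
theorem strong_o [Fact p.Prime] (K : Co n p q ε A) (hε : ε ≤ 1) {χ : JJ p ε → Bool}
    (h : χ ∘ sJ (sh p 1) = χ) {s : Fin p} {i : Fin ε} (h2 : χ (.inr (.inr (s, i))) = true)
    (h3 : P (star n)) : PV P (VV p A ε) (GC A χ) := by
  have hε1 : ε = 1 := by
    have := i.2
    omega
  have hctr : ∀ v : Fin n, v.1 + 1 = n → v = K.e (.inr i) := by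
    intro v hv
    apply Fin.ext
    rw [K.hr]
    have := K.hn
    have := i.2
    omega
  refine PV.mono hP K.e.symm ?_ ((PV_self hP).2 h3)
  intro v w hvw
  have key : ∀ v w : Fin n, v ≠ w → v.1 + 1 = n → (GC A χ).Adj (K.e.symm v) (K.e.symm w) := by
    intro v w hne hv
    rw [hctr v hv, Equiv.symm_apply_apply]
    obtain ⟨b, y, hw⟩ := K.inl_of w (by
      have h5 := K.hn
      have h6 := w.2
      have h7 : v.1 ≠ w.1 := fun h8 => hne (Fin.ext h8)
      omega)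
    rw [hw, Equiv.symm_apply_apply, GR_adj]
    exact ⟨_, Pool.Agent.H512.BD.orb_rl b y i, by rw [← h2]; exact fix_out h _ _ _⟩
  obtain ⟨hne, hv | hw⟩ := hvw
  · exact key v w hne hv
  · exact (key w v hne.symm hw).symm

include hP in
theorem strong_b [Fact p.Prime] (K : Co n p q ε A) {χ : JJ p ε → Bool}
    (h : χ ∘ sJ (sh p 1) = χ) {s0 : Fin p} (h0 : χ (.inl s0) = true) {e : EE p}
    (h2 : χ (.inr (.inl (e, true))) = true)
    (h3 : P (box n q (1 : (ZMod p)ˣ))) : PV P (VV p A ε) (GC A χ) := by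
  obtain ⟨s, t, h1, rfl⟩ := pr_exists e
  have h4 : ka p t - ka p s ≠ 0 := sub_ne_zero.2 fun h5 => h1 ((ka p).injective h5.symm)
  let δ : (ZMod p)ˣ := Units.mk0 _ h4
  refine PV.mono hP (K.e.symm.trans (sV (mu p δ))) ?_ ((PV_self hP).2 h3)
  intro v w hvw
  obtain ⟨hne, hv, hw, hN⟩ := hvw
  obtain ⟨a, x, rfl⟩ := K.inl_of v hv
  obtain ⟨b, y, rfl⟩ := K.inl_of w hw
  rw [K.div, K.div, K.mod, K.mod] at hN
  rw [Equiv.trans_apply, Equiv.trans_apply, Equiv.symm_apply_apply, Equiv.symm_apply_apply,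
    Pool.Agent.H512.BD.sV_inl, Pool.Agent.H512.BD.sV_inl, GR_adj]
  rcases hN with hN | ⟨hN, hm⟩
  · have hab : a = b := Fin.ext hN
    subst hab
    have hxy : x ≠ y := fun h5 => hne (by rw [h5])
    exact ⟨_, Pool.Agent.H512.BD.orb_same hxy, by rw [← h0]; exact fix_in h _ _⟩
  · have hab : mu p δ a ≠ mu p δ b := fun h5 => hN.ne (by rw [(mu p δ).injective h5])
    have hxy : x = y := K.f.injective (Fin.ext hm)
    refine ⟨_, Pool.Agent.H512.BD.orb_diff hab x y, ?_⟩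
    rw [decide_eq_true hxy]
    exact pr_on h h1 h2 δ rfl hab hN

include hP in
theorem weak_d (K : Co n p q ε A) {χ : JJ p ε → Bool}
    (h : ∀ j, χ j = true → ∃ e : EE p, j = .inr (.inl (e, true)))
    (h1 : PV P (VV p A ε) (GC A χ)) : P (cols n q p) := by
  rw [← PV_self hP]
  refine PV.mono hP K.e ?_ h1
  intro v w hvw
  have hne := hvw.ne
  rw [GR_adj] at hvw
  obtain ⟨j, hj, hj1⟩ := hvw
  obtain ⟨e, rfl⟩ := h j hj1
  refine ⟨fun h2 => hne (K.e.injective h2), ?_⟩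
  rcases v with ⟨s, x⟩ | i <;> rcases w with ⟨t, y⟩ | i'
  · refine ⟨K.lt _ _, K.lt _ _, ?_⟩
    rw [K.mod, K.mod]
    by_cases hst : s = t
    · subst hst
      have hxy : x ≠ y := fun h2 => hne (by rw [h2])
      rw [Pool.Agent.H512.BD.orb_same hxy] at hj
      cases hj
    · rw [Pool.Agent.H512.BD.orb_diff hst] at hj
      simp only [Option.some.injEq, Sum.inr.injEq, Sum.inl.injEq, Prod.mk.injEq,
        decide_eq_true_eq] at hj
      rw [hj.2]
  · rw [Pool.Agent.H512.BD.orb_lr] at hj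
    cases hj
  · rw [Pool.Agent.H512.BD.orb_rl] at hj
    cases hj
  · cases hj

include hP in
theorem weak_b (K : Co n p q ε A) {χ : JJ p ε → Bool}
    (h : ∀ j, χ j = true → ∃ s : Fin p, j = .inl s)
    (h1 : PV P (VV p A ε) (GC A χ)) : P (rows n q p) := by
  rw [← PV_self hP]
  refine PV.mono hP K.e ?_ h1
  intro v w hvw
  have hne := hvw.ne
  rw [GR_adj] at hvw
  obtain ⟨j, hj, hj1⟩ := hvw
  obtain ⟨e, rfl⟩ := h j hj1
  refine ⟨fun h2 => hne (K.e.injective h2), ?_⟩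
  rcases v with ⟨s, x⟩ | i <;> rcases w with ⟨t, y⟩ | i'
  · refine ⟨K.lt _ _, K.lt _ _, ?_⟩
    rw [K.div, K.div]
    by_cases hst : s = t
    · rw [hst]
    · rw [Pool.Agent.H512.BD.orb_diff hst] at hj
      cases hj
  · rw [Pool.Agent.H512.BD.orb_lr] at hj
    cases hj
  · rw [Pool.Agent.H512.BD.orb_rl] at hj
    cases hj
  · cases hj

include hP in
theorem PV_sJ {χ : JJ p ε → Bool} (σ : Equiv.Perm (Fin p)) :
    PV P (VV p A ε) (GC A (χ ∘ sJ σ)) ↔ PV P (VV p A ε) (GC A χ) := by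
  constructor
  · exact PV.mono hP (sV σ) fun v w hvw => (GC_sJ σ χ v w).2 hvw
  · refine PV.mono hP (sV σ).symm fun v w hvw => ?_
    rw [← GC_sJ, Equiv.apply_symm_apply, Equiv.apply_symm_apply]
    exact hvw

/-- the signed number of a family of configurations that agrees with `P` at the invariant
configurations vanishes modulo `p` -/
theorem cyc {n r k q ε d : ℕ} [Fact p.Prime] [Fact r.Prime] (hq : q = r ^ k) (hk : k ≠ 0)
    (hε : ε ≤ 1) (hn : n = p * q + ε) {P : SimpleGraph (Fin n) → Prop} (hP : GP n d P)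
    (hd : d < n.choose 2) (C : (JJ p ε → Bool) → Prop)
    (hC : ∀ (σ : Equiv.Perm (Fin p)) χ, C (χ ∘ sJ σ) ↔ C χ)
    (hfix : ∀ (A : Type) [DecidableEq A], Co n p q ε A →
      ∀ χ : JJ p ε → Bool, χ ∘ sJ (sh p 1) = χ → (PV P (VV p A ε) (GC A χ) ↔ C χ)) :
    (∑ χ : JJ p ε → Bool, sgn χ * bit (C χ)) ≡ 0 [ZMOD p] := by
  classical
  obtain ⟨B⟩ := exists_blk r k hk
  let _ : AddCommGroup B.A := B.grp
  let _ : Fintype B.A := B.fin
  let _ : DecidableEq B.A := B.dec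
  have hr : r.Prime := Fact.out
  have hcard : Fintype.card B.A = q := B.card.trans hq.symm
  have hnt : Nontrivial B.A := by
    rw [← Fintype.one_lt_card_iff_nontrivial, B.card]
    exact Nat.one_lt_pow hk hr.one_lt
  obtain ⟨K⟩ := exists_co hn hcard
  have hV : Fintype.card (VV p B.A ε) = n := by
    rw [Fintype.card_congr K.e, Fintype.card_fin]
  have hrel := Pool.Agent.H512.BD.relationC (m := p) (ε := ε) (A := B.A) hε (p := r) B.tors B.c
    B.trans hP hV hd
  refine contra (l := p) (k := 1) (fun χ : JJ p ε → Bool => χ ∘ sJ (sh p 1)) ?_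
    (fun χ => sgn χ * bit (PV P (VV p B.A ε) (GC B.A χ))) _ ?_ ?_ hrel ?_
  · funext χ
    rw [pow_one, iter_sh, ZMod.natCast_self, sh_zero]
    funext j
    exact congrArg χ (sJ_one j)
  · intro χ
    show sgn (χ ∘ sJ (sh p 1)) * bit (PV P (VV p B.A ε) (GC B.A (χ ∘ sJ (sh p 1)))) = _
    rw [sgn_comp, bit_congr (PV_sJ hP _)]
  · intro χ
    show sgn (χ ∘ sJ (sh p 1)) * bit (C (χ ∘ sJ (sh p 1))) = _
    rw [sgn_comp, bit_congr (hC _ χ)]
  · intro χ hχ
    show sgn χ * bit (PV P (VV p B.A ε) (GC B.A χ)) = sgn χ * bit (C χ)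
    rw [bit_congr (hfix B.A K χ hχ)]

end Pool.Agent.H512.DT
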