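import Pool.Agent.H512.DT.Cyc

set_option autoImplicit false
set_option linter.unusedSectionVars false

/-!
MP_257582_lc. The two criteria for `n = p q` or `n = p q + 1`.
-/

namespace Pool.Agent.H512.DT

open Finset
open Pool.Agent.H119R2.Kp (GP PV pve_map_adj)
open Pool.Agent.TH669.KP (GR GR_adj sgn bit bit_pos bit_neg bit_congr)
open Pool.Agent.H512.BD (VV JJ EE GC pr pr_swap pr_eq_iff pr_exists sV sE sJ GC_sJ sgn_comp)

variable {p ε : ℕ}

/-- inside a copy -/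
def TB (p ε : ℕ) (j : JJ p ε) : Prop := ∃ s : Fin p, j = .inl s

/-- equal second coordinates -/
def TD (p ε : ℕ) (j : JJ p ε) : Prop := ∃ e : EE p, j = .inr (.inl (e, true))

theorem TB_sJ (σ : Equiv.Perm (Fin p)) (j : JJ p ε) : TB p ε (sJ σ j) ↔ TB p ε j := by
  rcases j with s | ⟨e, b⟩ | ⟨s, i⟩
  · exact ⟨fun _ => ⟨s, rfl⟩, fun _ => ⟨σ s, rfl⟩⟩
  · exact ⟨fun ⟨s, h⟩ => (by cases h), fun ⟨s, h⟩ => (by cases h)⟩
  · exact ⟨fun ⟨s, h⟩ => (by cases h), fun ⟨s, h⟩ => (by cases h)⟩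

theorem TD_sJ (σ : Equiv.Perm (Fin p)) (j : JJ p ε) : TD p ε (sJ σ j) ↔ TD p ε j := by
  rcases j with s | ⟨e, b⟩ | ⟨s, i⟩
  · exact ⟨fun ⟨s, h⟩ => (by cases h), fun ⟨s, h⟩ => (by cases h)⟩
  · constructor
    · rintro ⟨e', h⟩
      have h1 : sJ (ε := ε) σ (.inr (.inl (e, b))) = .inr (.inl (sE σ e, b)) := rfl
      rw [h1] at h
      simp only [Sum.inr.injEq, Sum.inl.injEq, Prod.mk.injEq] at h
      exact ⟨e, by rw [h.2]⟩
    · rintro ⟨e', h⟩
      simp only [Sum.inr.injEq, Sum.inl.injEq, Prod.mk.injEq] at h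
      rw [h.2]
      exact ⟨sE σ e, rfl⟩
  · exact ⟨fun ⟨s, h⟩ => (by cases h), fun ⟨s, h⟩ => (by cases h)⟩

theorem Cc_comp {J : Type} {B D : J → Prop} (σ : Equiv.Perm J) (hB : ∀ j, B (σ j) ↔ B j)
    (hD : ∀ j, D (σ j) ↔ D j) (χ : J → Bool) : Cc B D (χ ∘ σ) ↔ Cc B D χ := by
  unfold Cc
  constructor
  · rintro (⟨j, h1, h2, h3⟩ | ⟨⟨j, h1, h2⟩, ⟨i, h3, h4⟩⟩)
    · exact Or.inl ⟨σ j, by rwa [hB], by rwa [hD], h3⟩
    · exact Or.inr ⟨⟨σ j, by rwa [hB], h2⟩, ⟨σ i, by rwa [hD], h4⟩⟩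
  · rintro (⟨j, h1, h2, h3⟩ | ⟨⟨j, h1, h2⟩, ⟨i, h3, h4⟩⟩)
    · exact Or.inl ⟨σ.symm j, by rw [← hB]; simpa using h1, by rw [← hD]; simpa using h2,
        by simpa using h3⟩
    · exact Or.inr ⟨⟨σ.symm j, by rw [← hB]; simpa using h1, by simpa using h2⟩,
        ⟨σ.symm i, by rw [← hD]; simpa using h3, by simpa using h4⟩⟩

/-- if a set is not mixed then it is contained in one of the two parts -/
theorem not_Cc {J : Type} {B D : J → Prop} {χ : J → Bool} (h : ¬ Cc B D χ) :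
    (∀ j, χ j = true → D j) ∨ ∀ j, χ j = true → B j := by
  by_contra hcon
  push Not at hcon
  obtain ⟨⟨i, hi, hi'⟩, ⟨j, hj, hj'⟩⟩ := hcon
  apply h
  by_cases h5 : B i
  · by_cases h6 : D j
    · exact Or.inr ⟨⟨i, h5, hi⟩, ⟨j, h6, hj⟩⟩
    · exact Or.inl ⟨j, hj', h6, hj⟩
  · exact Or.inl ⟨i, h5, hi', hi⟩

variable {n r k q d : ℕ} [Fact p.Prime] [Fact r.Prime] (hq : q = r ^ k) (hk : k ≠ 0)
    (hε : ε ≤ 1) (hn : n = p * q + ε) {P : SimpleGraph (Fin n) → Prop} (hP : GP n d P)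
    (hd : d < n.choose 2)

include hq hk hε hn hP hd in
theorem cyc_A (h1 : P (tens n q (1 : (ZMod p)ˣ))) (h2 : P (box n q (1 : (ZMod p)ˣ)))
    (h3 : ε = 1 → P (star n)) (h4 : ¬ P (rows n q p)) (h5 : ¬ P (cols n q p)) : False := by
  have hp2 : 2 ≤ p := (Fact.out : p.Prime).two_le
  have hs0 : (⟨0, by omega⟩ : Fin p) ≠ ⟨1, by omega⟩ := fun h => by simpa using congrArg Fin.val h
  have h6 := cyc hq hk hε hn hP hd (Cc (TB p ε) (TD p ε))
    (fun σ χ => Cc_comp (sJ σ) (TB_sJ σ) (TD_sJ σ) χ) (by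
      intro A _ K χ hχ
      constructor
      · intro h7
        by_contra h8
        rcases not_Cc h8 with h9 | h9
        · exact h5 (weak_d hP K h9 h7)
        · exact h4 (weak_b hP K h9 h7)
      · rintro (⟨j, h7, h8, h9⟩ | ⟨⟨j, ⟨s, rfl⟩, h7⟩, ⟨i, ⟨e, rfl⟩, h8⟩⟩)
        · rcases j with s | ⟨e, b⟩ | ⟨s, i⟩
          · exact absurd ⟨s, rfl⟩ h7
          · cases b
            · exact strong_e hP K hχ h9 h1
            · exact absurd ⟨e, rfl⟩ h8
          · refine strong_o hP K hε hχ h9 (h3 ?_)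
            have := i.2
            omega
        · exact strong_b hP K hχ h7 h8 h2)
  rw [sum_Cc ⟨.inl ⟨0, by omega⟩, _, rfl⟩ ⟨.inr (.inl (pr _ _ hs0, true)), _, rfl⟩
    (by rintro j ⟨s, rfl⟩ ⟨e, h⟩; cases h)] at h6
  have h7 := (Int.modEq_zero_iff_dvd.1 h6)
  have h8 := Int.le_of_dvd one_pos h7
  omega

include hP in
theorem on_rows {A : Type} [DecidableEq A] (K : Co n p q ε A) {χ : JJ p ε → Bool}
    (h : χ ∘ sJ (sh p 1) = χ) {s0 : Fin p} (h0 : χ (.inl s0) = true)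
    (h3 : P (rows n q p)) : PV P (VV p A ε) (GC A χ) := by
  refine PV.mono hP K.e.symm ?_ ((PV_self hP).2 h3)
  intro v w hvw
  obtain ⟨hne, hv, hw, hN⟩ := hvw
  obtain ⟨a, x, rfl⟩ := K.inl_of v hv
  obtain ⟨b, y, rfl⟩ := K.inl_of w hw
  rw [K.div, K.div] at hN
  rw [Equiv.symm_apply_apply, Equiv.symm_apply_apply, GR_adj]
  have hab : a = b := Fin.ext hN
  subst hab
  have hxy : x ≠ y := fun h5 => hne (by rw [h5])
  exact ⟨_, Pool.Agent.H512.BD.orb_same hxy, by rw [← h0]; exact fix_in h _ _⟩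

include hP in
theorem on_cops {A : Type} [DecidableEq A] (K : Co n p q ε A) {χ : JJ p ε → Bool}
    (h : χ ∘ sJ (sh p 1) = χ) {e : EE p} (h2 : χ (.inr (.inl (e, true))) = true)
    (h3 : P (cops n q (1 : (ZMod p)ˣ))) : PV P (VV p A ε) (GC A χ) := by
  obtain ⟨s, t, h1, rfl⟩ := pr_exists e
  have h4 : ka p t - ka p s ≠ 0 := sub_ne_zero.2 fun h5 => h1 ((ka p).injective h5.symm)
  let δ : (ZMod p)ˣ := Units.mk0 _ h4
  refine PV.mono hP (K.e.symm.trans (sV (mu p δ))) ?_ ((PV_self hP).2 h3)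
  intro v w hvw
  obtain ⟨hne, hv, hw, hN, hm⟩ := hvw
  obtain ⟨a, x, rfl⟩ := K.inl_of v hv
  obtain ⟨b, y, rfl⟩ := K.inl_of w hw
  rw [K.div, K.div] at hN
  rw [K.mod, K.mod] at hm
  rw [Equiv.trans_apply, Equiv.trans_apply, Equiv.symm_apply_apply, Equiv.symm_apply_apply,
    Pool.Agent.H512.BD.sV_inl, Pool.Agent.H512.BD.sV_inl, GR_adj]
  have hab : mu p δ a ≠ mu p δ b := fun h5 => hN.ne (by rw [(mu p δ).injective h5])
  have hxy : x = y := K.f.injective (Fin.ext hm)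
  refine ⟨_, Pool.Agent.H512.BD.orb_diff hab x y, ?_⟩
  rw [decide_eq_true hxy]
  exact pr_on h h1 h2 δ rfl hab hN

include hq hk hε hn hP hd in
theorem cyc_B (h1 : P (tens n q (1 : (ZMod p)ˣ))) (h2 : P (rows n q p))
    (h2' : P (cops n q (1 : (ZMod p)ˣ)))
    (h3 : ε = 1 → P (star n)) (h4 : ¬ P ⊥) : False := by
  have hp2 : 2 ≤ p := (Fact.out : p.Prime).two_le
  have h6 := cyc hq hk hε hn hP hd (fun χ => ∃ j, χ j = true)
    (fun σ χ => by
      constructor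
      · rintro ⟨j, hj⟩
        exact ⟨sJ σ j, hj⟩
      · rintro ⟨j, hj⟩
        exact ⟨(sJ σ).symm j, by simpa using hj⟩) (by
      intro A _ K χ hχ
      constructor
      · intro h7
        by_contra h8
        apply h4
        rw [← PV_self hP]
        refine PV.mono hP K.e ?_ h7
        intro v w hvw
        rw [GR_adj] at hvw
        obtain ⟨j, -, hj⟩ := hvw
        exact absurd ⟨j, hj⟩ h8
      · rintro ⟨j, h9⟩
        rcases j with s | ⟨e, b⟩ | ⟨s, i⟩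
        · exact on_rows hP K hχ h9 h2
        · cases b
          · exact strong_e hP K hχ h9 h1
          · exact on_cops hP K hχ h9 h2'
        · refine strong_o hP K hε hχ h9 (h3 ?_)
          have := i.2
          omega)
  have : Nonempty (JJ p ε) := ⟨.inl ⟨0, by omega⟩⟩
  rw [sum_some] at h6
  have h7 := (Int.modEq_zero_iff_dvd.1 h6)
  have h8 := Int.le_of_dvd one_pos (dvd_neg.2 h7)
  omega

end Pool.Agent.H512.DT
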