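import Pool.Agent.H512.DT.Ext

set_option autoImplicit false
set_option linter.unusedSectionVars false

/-!
MP_257582_lc. Distances and components in the products.
-/

namespace Pool.Agent.H512.DT

open Finset
open Pool.Agent.H512.BD (VV const_reach)

section dist

variable {n p q ε : ℕ} [Fact p.Prime] (K : Co n p q ε (Fin q))

/-- the vertex with the coordinates `z`, `x` -/
def vt (z : ZMod p) (x : Fin q) : Fin n := K.e (.inl ((ka p).symm z, x))

theorem vt_lt (z : ZMod p) (x : Fin q) : (vt K z x).1 < p * q := K.lt _ _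

theorem vt_div (z : ZMod p) (x : Fin q) : (((vt K z x).1 / q : ℕ) : ZMod p) = z := by
  unfold vt
  rw [K.div]
  exact (ka p).apply_symm_apply z

theorem vt_mod (z : ZMod p) (x : Fin q) : (vt K z x).1 % q = (K.f x).1 := by
  unfold vt
  rw [K.mod]

theorem vt_of (v : Fin n) (h : v.1 < p * q) : ∃ z x, v = vt K z x := by
  obtain ⟨s, x, rfl⟩ := K.inl_of v h
  exact ⟨ka p s, x, by unfold vt; rw [Equiv.symm_apply_apply]⟩

theorem tens_adj {u : (ZMod p)ˣ} {z z' : ZMod p} {x x' : Fin q} (h : Near u z z') (hx : x ≠ x') :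
    (tens n q u).Adj (vt K z x) (vt K z' x') := by
  refine ⟨vt_lt K _ _, vt_lt K _ _, ?_, ?_⟩
  · rw [vt_div, vt_div]
    exact h
  · rw [vt_mod, vt_mod]
    exact fun h1 => hx (K.f.injective (Fin.ext h1))

theorem vt_inj {z z' : ZMod p} {x x' : Fin q} (h : vt K z x = vt K z' x') : z = z' ∧ x = x' := by
  unfold vt at h
  have h1 := K.e.injective h
  simp only [Sum.inl.injEq, Prod.mk.injEq, EmbeddingLike.apply_eq_iff_eq] at h1
  exact h1

theorem box_adj1 {u : (ZMod p)ˣ} {z : ZMod p} {x x' : Fin q} (hx : x ≠ x') :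
    (box n q u).Adj (vt K z x) (vt K z x') := by
  refine ⟨fun h => hx (vt_inj K h).2, vt_lt K _ _, vt_lt K _ _, Or.inl ?_⟩
  unfold vt
  rw [K.div, K.div]

theorem box_adj2 {u : (ZMod p)ˣ} {z z' : ZMod p} {x : Fin q} (h : Near u z z') :
    (box n q u).Adj (vt K z x) (vt K z' x) := by
  refine ⟨fun h1 => h.ne (vt_inj K h1).1, vt_lt K _ _, vt_lt K _ _, Or.inr ⟨?_, ?_⟩⟩
  · rw [vt_div, vt_div]
    exact h
  · rw [vt_mod, vt_mod]

theorem edist_step {V : Type} {G : SimpleGraph V} {a b c : V} {k : ℕ} (h1 : G.Adj a b)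
    (h2 : G.edist b c ≤ (k : ℕ∞)) : G.edist a c ≤ ((k + 1 : ℕ) : ℕ∞) := by
  refine (SimpleGraph.edist_triangle (v := b)).trans ?_
  rw [SimpleGraph.edist_eq_one_iff_adj.2 h1]
  push_cast
  rw [add_comm]
  exact add_le_add_left h2 1

/-- a walk of every length at least two in one direction -/
theorem tens_walk (hq : 3 ≤ q) (t : ZMod p) (ht : ∀ z, Near (1 : (ZMod p)ˣ) z (z + t)) (k : ℕ)
    (z : ZMod p) (x y : Fin q) :
    (tens n q (1 : (ZMod p)ˣ)).edist (vt K z x) (vt K (z + (k + 2 : ℕ) * t) y) ≤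
      ((k + 2 : ℕ) : ℕ∞) := by
  induction k generalizing z x with
  | zero =>
    obtain ⟨w, h1, h2⟩ := third (T := Fin q) (by rwa [Fintype.card_fin]) x y
    have h3 := ht (z + t)
    have h4 : z + t + t = z + ((0 + 2 : ℕ) : ZMod p) * t := by
      push_cast
      ring
    rw [h4] at h3
    have h5 := two_of_common (tens_adj K (ht z) h1.symm) (tens_adj K h3 h2)
    exact_mod_cast h5
  | succ k ih =>
    obtain ⟨w, h1, -⟩ := third (T := Fin q) (by rwa [Fintype.card_fin]) x x
    have h3 := ih (z + t) w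
    have h4 : z + t + ((k + 2 : ℕ) : ZMod p) * t = z + ((k + 1 + 2 : ℕ) : ZMod p) * t := by
      push_cast
      ring
    rw [h4] at h3
    have := edist_step (tens_adj K (ht z) h1.symm) h3
    exact this

theorem near_one (z : ZMod p) : Near (1 : (ZMod p)ˣ) z (z + 1) := ⟨0, Or.inr (by simp)⟩

theorem near_neg (z : ZMod p) : Near (1 : (ZMod p)ˣ) z (z + -1) := ⟨0, Or.inl (by simp)⟩

/-- the distance along the cycle is at most `(p - 1) / 2` -/
theorem dir (hp : 3 ≤ p) (z z' : ZMod p) : ∃ j : ℕ, j ≤ (p - 1) / 2 ∧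
    (z' = z + j * 1 ∨ z' = z + j * -1) := by
  have hodd : p % 2 = 1 := by
    have := (Fact.out : p.Prime).eq_two_or_odd
    omega
  by_cases h : (z' - z).val ≤ (p - 1) / 2
  · refine ⟨_, h, Or.inl ?_⟩
    rw [ZMod.natCast_zmod_val]
    ring
  · refine ⟨p - (z' - z).val, ?_, Or.inr ?_⟩
    · have := ZMod.val_lt (z' - z)
      omega
    · rw [Nat.cast_sub (ZMod.val_lt _).le, ZMod.natCast_self, ZMod.natCast_zmod_val]
      ring

theorem edist_le_of {V : Type} {G : SimpleGraph V} {a b : V} {k l : ℕ} (h : G.edist a b ≤ (k : ℕ∞))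
    (hkl : k ≤ l) : G.edist a b ≤ (l : ℕ∞) := h.trans (by exact_mod_cast hkl)

theorem tens_same (hq : 3 ≤ q) {t : ZMod p} (ht : ∀ z, Near (1 : (ZMod p)ˣ) z (z + t)) (z : ZMod p)
    (x y : Fin q) : (tens n q (1 : (ZMod p)ˣ)).edist (vt K z x) (vt K z y) ≤ ((2 : ℕ) : ℕ∞) := by
  obtain ⟨w, h1, h2⟩ := third (T := Fin q) (by rwa [Fintype.card_fin]) x y
  exact_mod_cast two_of_common (tens_adj K (ht z) h1.symm) (tens_adj K (ht z).symm h2)

theorem tens_dist (hp : 3 ≤ p) (hq : 3 ≤ q) (z z' : ZMod p) (x y : Fin q) :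
    (tens n q (1 : (ZMod p)ˣ)).edist (vt K z x) (vt K z' y) ≤ (((p + 1) / 2 : ℕ) : ℕ∞) := by
  have hodd : p % 2 = 1 := by
    have := (Fact.out : p.Prime).eq_two_or_odd
    omega
  have key : ∀ t : ZMod p, (∀ z, Near (1 : (ZMod p)ˣ) z (z + t)) →
      (∀ z, Near (1 : (ZMod p)ˣ) z (z + -t)) → ∀ j : ℕ, j ≤ (p - 1) / 2 →
      (tens n q (1 : (ZMod p)ˣ)).edist (vt K z x) (vt K (z + j * t) y) ≤
        (((p + 1) / 2 : ℕ) : ℕ∞) := by
    intro t ht ht' j hj
    rcases Nat.lt_or_ge j 2 with h2 | h2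
    · rcases Nat.eq_zero_or_pos j with h0 | h0
      · subst h0
        have h3 := tens_same K hq ht z x y
        rw [Nat.cast_zero, zero_mul, add_zero]
        exact edist_le_of h3 (by omega)
      · have h1 : j = 1 := by omega
        subst h1
        rcases Nat.lt_or_ge p 5 with h5 | h5
        · have hp3 : p = 3 := by omega
          have h3 := tens_walk K hq (-t) ht' 0 z x y
          have h4 : z + ((0 + 2 : ℕ) : ZMod p) * -t = z + ((1 : ℕ) : ZMod p) * t := by
            have h6 : ((3 : ℕ) : ZMod p) = 0 := by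
              rw [ZMod.natCast_eq_zero_iff, hp3]
            push_cast at h6 ⊢
            linear_combination (-t) * h6
          rw [h4] at h3
          exact edist_le_of h3 (by omega)
        · obtain ⟨w, h6, -⟩ := third (T := Fin q) (by rwa [Fintype.card_fin]) x x
          have h3 := tens_same K hq ht (z + t) w y
          have h4 := edist_step (tens_adj K (ht z) h6.symm) h3
          rw [Nat.cast_one, one_mul]
          exact edist_le_of h4 (by omega)
    · obtain ⟨k, rfl⟩ : ∃ k, j = k + 2 := ⟨j - 2, by omega⟩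
      exact edist_le_of (tens_walk K hq t ht k z x y) (by omega)
  obtain ⟨j, hj, h1 | h1⟩ := dir hp z z'
  · rw [h1]
    exact key 1 near_one near_neg j hj
  · rw [h1]
    exact key (-1) near_neg (fun z => by rw [neg_neg]; exact near_one z) j hj

theorem box_walk (t : ZMod p) (ht : ∀ z, Near (1 : (ZMod p)ˣ) z (z + t)) (k : ℕ)
    (z : ZMod p) (x : Fin q) :
    (box n q (1 : (ZMod p)ˣ)).edist (vt K z x) (vt K (z + (k : ℕ) * t) x) ≤ ((k : ℕ) : ℕ∞) := by
  induction k generalizing z with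
  | zero => simp [SimpleGraph.edist_self]
  | succ k ih =>
    have h3 := ih (z + t)
    have h4 : z + t + ((k : ℕ) : ZMod p) * t = z + ((k + 1 : ℕ) : ZMod p) * t := by
      push_cast
      ring
    rw [h4] at h3
    exact edist_step (box_adj2 K (ht z)) h3

theorem box_first {u : (ZMod p)ˣ} {z z' : ZMod p} {x y : Fin q} {k : ℕ}
    (h : (box n q u).edist (vt K z y) (vt K z' y) ≤ (k : ℕ∞)) :
    (box n q u).edist (vt K z x) (vt K z' y) ≤ ((k + 1 : ℕ) : ℕ∞) := by
  by_cases hxy : x = y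
  · subst hxy
    exact edist_le_of h (by omega)
  · exact edist_step (box_adj1 K hxy) h

theorem box_dist (hp : 3 ≤ p) (z z' : ZMod p) (x y : Fin q) :
    (box n q (1 : (ZMod p)ˣ)).edist (vt K z x) (vt K z' y) ≤ (((p + 1) / 2 : ℕ) : ℕ∞) := by
  obtain ⟨j, hj, h1 | h1⟩ := dir hp z z'
  · rw [h1]
    exact edist_le_of (box_first K (box_walk K 1 near_one j z y)) (by omega)
  · rw [h1]
    exact edist_le_of (box_first K (box_walk K (-1) near_neg j z y)) (by omega)

theorem tens_two {u : (ZMod p)ˣ} (hu : ∀ z z' : ZMod p, z ≠ z' → Near u z z') (hp : 3 ≤ p)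
    (hq : 3 ≤ q) (z z' : ZMod p) (x y : Fin q) :
    (tens n q u).edist (vt K z x) (vt K z' y) ≤ ((2 : ℕ) : ℕ∞) := by
  obtain ⟨w, h1, h2⟩ := third (T := Fin q) (by rwa [Fintype.card_fin]) x y
  obtain ⟨z'', h3, h4⟩ := third (T := ZMod p) (by rwa [ZMod.card]) z z'
  exact_mod_cast two_of_common (tens_adj K (hu _ _ h3.symm) h1.symm) (tens_adj K (hu _ _ h4) h2)

theorem box_two {u : (ZMod p)ˣ} (hu : ∀ z z' : ZMod p, z ≠ z' → Near u z z')
    (z z' : ZMod p) (x y : Fin q) :
    (box n q u).edist (vt K z x) (vt K z' y) ≤ ((2 : ℕ) : ℕ∞) := by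
  refine box_first K (k := 1) ?_
  by_cases h : z = z'
  · subst h
    simp [SimpleGraph.edist_self]
  · rw [SimpleGraph.edist_eq_one_iff_adj.2 (box_adj2 K (hu _ _ h))]
    exact_mod_cast le_rfl

end dist

section comp

variable {n p q ε : ℕ}

/-- a vertex outside the product is isolated -/
theorem iso_reach {G : SimpleGraph (Fin n)} {m : ℕ} (h : ∀ u v, G.Adj u v → u.1 < m ∧ v.1 < m)
    {u v : Fin n} (huv : G.Reachable u v) : u = v ∨ (u.1 < m ∧ v.1 < m) := by
  have h1 : (u.1 < m ∧ v.1 < m) ∨ u = v := by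
    obtain ⟨w⟩ := huv
    induction w with
    | nil => exact Or.inr rfl
    | cons h2 _ ih =>
      have h3 := h _ _ h2
      rcases ih with ih | rfl
      · exact Or.inl ⟨h3.1, ih.2⟩
      · exact Or.inl h3
  exact h1.symm

theorem rows_reach {u v : Fin n} (h : (rows n q p).Reachable u v) : u.1 / q = v.1 / q :=
  const_reach (F := fun w : Fin n => w.1 / q)
    (fun a b (h1 : (rows n q p).Adj a b) => h1.2.2.2) h

theorem cols_reach {u v : Fin n} (h : (cols n q p).Reachable u v) : u.1 % q = v.1 % q :=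
  const_reach (F := fun w : Fin n => w.1 % q)
    (fun a b (h1 : (cols n q p).Adj a b) => h1.2.2.2) h

theorem rows_card (hq : 0 < q) (u : Fin n) :
    Nat.card {w // (rows n q p).Reachable u w} ≤ q := by
  have h : Nat.card {w // (rows n q p).Reachable u w} ≤ Nat.card (Fin q) := by
    refine Nat.card_le_card_of_injective
      (fun w : {w // (rows n q p).Reachable u w} => (⟨w.1.1 % q, Nat.mod_lt _ hq⟩ : Fin q)) ?_
    rintro ⟨w, hw⟩ ⟨w', hw'⟩ h1
    simp only [Fin.mk.injEq] at h1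
    have h2 := (rows_reach hw).symm.trans (rows_reach hw')
    apply Subtype.ext
    apply Fin.ext
    show w.1 = w'.1
    rw [← Nat.div_add_mod w.1 q, ← Nat.div_add_mod w'.1 q, h1, h2]
  rwa [Nat.card_eq_fintype_card (α := Fin q), Fintype.card_fin] at h

theorem cols_card (hp : 0 < p) (u : Fin n) :
    Nat.card {w // (cols n q p).Reachable u w} ≤ p := by
  have hiso : ∀ w, (cols n q p).Reachable u w → u = w ∨ (u.1 < p * q ∧ w.1 < p * q) :=
    fun w hw => iso_reach (fun a b (h1 : (cols n q p).Adj a b) => ⟨h1.2.1, h1.2.2.1⟩) hw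
  have h : Nat.card {w // (cols n q p).Reachable u w} ≤ Nat.card (Fin p) := by
    refine Nat.card_le_card_of_injective
      (fun w : {w // (cols n q p).Reachable u w} =>
        (⟨(w.1.1 / q) % p, Nat.mod_lt _ hp⟩ : Fin p)) ?_
    rintro ⟨w, hw⟩ ⟨w', hw'⟩ h1
    simp only [Fin.mk.injEq] at h1
    have h2 := (cols_reach hw).symm.trans (cols_reach hw')
    apply Subtype.ext
    show w = w'
    have hlt : ∀ w : Fin n, w.1 < p * q → (w.1 / q) % p = w.1 / q := fun w hw =>
      Nat.mod_eq_of_lt (Nat.div_lt_of_lt_mul (by rwa [mul_comm]))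
    rcases hiso w hw with h3 | ⟨h3, h4⟩
    · rcases hiso w' hw' with h5 | ⟨h5, h6⟩
      · rw [← h3, ← h5]
      · rw [← h3] at h1 h2 ⊢
        rw [hlt _ h5, hlt _ h6] at h1
        apply Fin.ext
        rw [← Nat.div_add_mod u.1 q, ← Nat.div_add_mod w'.1 q, h1, h2]
    · rcases hiso w' hw' with h5 | ⟨h5, h6⟩
      · rw [← h5] at h1 h2 ⊢
        rw [hlt _ h3, hlt _ h4] at h1
        apply Fin.ext
        rw [← Nat.div_add_mod u.1 q, ← Nat.div_add_mod w.1 q, h1, h2]
      · rw [hlt _ h4, hlt _ h6] at h1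
        apply Fin.ext
        rw [← Nat.div_add_mod w.1 q, ← Nat.div_add_mod w'.1 q, h1, h2]
  rwa [Nat.card_eq_fintype_card (α := Fin p), Fintype.card_fin] at h

end comp

end Pool.Agent.H512.DT
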