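import Mathlib

set_option autoImplicit false

/-!
MP_257582_lc. Sums of invariant functions modulo a prime.
-/

namespace Pool.Agent.H512.DT

open Finset

theorem fix_modEq {X : Type} [Fintype X] [DecidableEq X] {p k : ℕ} [Fact p.Prime]
    (σ : X → X) (hσ : σ^[p ^ k] = id) (f : X → ℤ) (hf : ∀ x, f (σ x) = f x) :
    (∑ x, f x) ≡ ∑ x ∈ univ.filter (fun x => σ x = x), f x [ZMOD p] := by
  classical
  have h1 : ∀ v : ℤ, (univ.filter fun x => f x = v).card ≡
      ((univ.filter fun x => σ x = x).filter fun x => f x = v).card [MOD p] := by
    intro v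
    let τ : Function.End {x : X // f x = v} := fun x => ⟨σ x.1, by rw [hf, x.2]⟩
    have hτ : ∀ (j : ℕ) (x : {x : X // f x = v}), ((τ ^ j) x).1 = σ^[j] x.1 := by
      intro j
      induction j with
      | zero => intro x; rfl
      | succ j ih =>
        intro x
        have : (τ ^ (j + 1)) x = (τ ^ j) (τ x) := by rw [pow_succ]; rfl
        rw [this, ih, Function.iterate_succ_apply]
    have h2 := Equiv.Perm.card_fixedPoints_modEq (f := τ) (p := p) (n := k) (by
      funext x
      apply Subtype.ext
      rw [hτ, hσ]
      rfl)
    rw [Fintype.card_subtype] at h2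
    refine h2.trans ?_
    have h3 : Fintype.card (Function.fixedPoints τ) =
        ((univ.filter fun x => σ x = x).filter fun x => f x = v).card := by
      rw [← Fintype.card_coe]
      refine Fintype.card_congr
        { toFun := fun x => ⟨x.1.1, ?_⟩
          invFun := fun x => ⟨⟨x.1, ?_⟩, ?_⟩
          left_inv := fun x => rfl
          right_inv := fun x => rfl }
      · have := x.2
        rw [Finset.mem_filter, Finset.mem_filter]
        refine ⟨⟨Finset.mem_univ _, ?_⟩, x.1.2⟩
        exact congrArg Subtype.val (show τ x.1 = x.1 from this)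
      · have := x.2
        rw [Finset.mem_filter, Finset.mem_filter] at this
        exact this.2
      · have := x.2
        rw [Finset.mem_filter, Finset.mem_filter] at this
        exact Subtype.ext this.1.2
    rw [h3]
  have h4 : ∀ s : Finset X, ∑ x ∈ s, f x =
      ∑ v ∈ univ.image f, ((s.filter fun x => f x = v).card : ℤ) * v := by
    intro s
    rw [← Finset.sum_fiberwise_of_maps_to (s := s) (t := univ.image f) (g := f)
      (fun x _ => Finset.mem_image_of_mem _ (Finset.mem_univ _))]
    refine Finset.sum_congr rfl fun v _ => ?_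
    rw [Finset.sum_congr rfl (fun x hx => (Finset.mem_filter.1 hx).2), Finset.sum_const,
      nsmul_eq_mul]
  rw [h4, h4 (univ.filter fun x => σ x = x)]
  have h5 : ∀ t : Finset ℤ, (∑ v ∈ t, ((univ.filter fun x => f x = v).card : ℤ) * v) ≡
      ∑ v ∈ t, (((univ.filter fun x => σ x = x).filter fun x => f x = v).card : ℤ) * v
        [ZMOD p] := by
    intro t
    induction t using Finset.induction_on with
    | empty => simp [Int.ModEq]
    | insert v t hv ih =>
      rw [Finset.sum_insert hv, Finset.sum_insert hv]
      refine Int.ModEq.add (Int.ModEq.mul_right _ ?_) ih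
      exact Int.natCast_modEq_iff.2 (h1 v)
  exact h5 _

end Pool.Agent.H512.DT
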