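import Pool.Agent.H512.DT.Model
import Pool.Agent.H512.DT.Fix
import Pool.Graph.R_seed8.H119R2.Kp.PVE

set_option autoImplicit false
set_option linter.unusedSectionVars false

/-!
MP_257582_lc. The multiplications by units of `ZMod p` act on the configurations; if the number of
classes is a power of a prime `l`, only the eight fixed configurations matter modulo `l`.
-/

namespace Pool.Agent.H512.DT

open Finset
open Pool.Agent.H119R2.Kp (GP PV pve_map_adj)
open Pool.Agent.TH669.KP (GR GR_adj rel_orb sgn bit bit_pos bit_neg bit_congr)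

variable {p : ℕ} {A : Type} [DecidableEq A]

/-- multiplication of classes -/
def mc (u : (ZMod p)ˣ) (e : CC p) : CC p :=
  ⟨e.1.map (fun x => u * x), by
    obtain ⟨e, d, hd, rfl⟩ := e
    refine ⟨u * d, ?_, ?_⟩
    · intro h
      apply hd
      have : (↑u⁻¹ : ZMod p) * (u * d) = d := by rw [← mul_assoc, Units.inv_mul, one_mul]
      rw [← this, h, mul_zero]
    · rw [Sym2.map_mk]
      simp⟩

theorem unit_mul_ne {u : (ZMod p)ˣ} {d : ZMod p} (h : d ≠ 0) : (u : ZMod p) * d ≠ 0 := by
  intro h1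
  apply h
  have : (↑u⁻¹ : ZMod p) * (u * d) = d := by rw [← mul_assoc, Units.inv_mul, one_mul]
  rw [← this, h1, mul_zero]

theorem mc_cl (u : (ZMod p)ˣ) (d : ZMod p) (h : d ≠ 0) : mc u (cl d h) = cl ((u : ZMod p) * d) (unit_mul_ne h) := by
  unfold mc cl
  apply Subtype.ext
  simp [Sym2.map_mk]

theorem mc_mul (u v : (ZMod p)ˣ) (e : CC p) : mc u (mc v e) = mc (u * v) e := by
  obtain ⟨d, h, rfl⟩ := cl_exists e
  rw [mc_cl, mc_cl, mc_cl, cl_eq_iff]
  left
  push_cast
  ring

theorem mc_one (e : CC p) : mc 1 e = e := by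
  obtain ⟨d, h, rfl⟩ := cl_exists e
  rw [mc_cl, cl_eq_iff]
  left
  simp

theorem mc_neg_one (e : CC p) : mc (-1) e = e := by
  obtain ⟨d, h, rfl⟩ := cl_exists e
  rw [mc_cl, cl_eq_iff]
  right
  simp

/-- multiplication of orbits -/
def mj (u : (ZMod p)ˣ) : Equiv.Perm (J2 p) where
  toFun := Option.map fun x => (mc u x.1, x.2)
  invFun := Option.map fun x => (mc u⁻¹ x.1, x.2)
  left_inv j := by
    rcases j with _ | ⟨e, b⟩
    · rfl
    · simp [mc_mul, mc_one]
  right_inv j := by
    rcases j with _ | ⟨e, b⟩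
    · rfl
    · simp [mc_mul, mc_one]

theorem mj_none (u : (ZMod p)ˣ) : mj u none = none := rfl

theorem mj_some (u : (ZMod p)ˣ) (e : CC p) (b : Bool) : mj u (some (e, b)) = some (mc u e, b) := rfl

/-- multiplication of vertices -/
def mv (u : (ZMod p)ˣ) : Equiv.Perm (ZMod p × A) where
  toFun v := (u * v.1, v.2)
  invFun v := (↑u⁻¹ * v.1, v.2)
  left_inv v := by
    apply Prod.ext
    · show (↑u⁻¹ : ZMod p) * (u * v.1) = v.1
      rw [← mul_assoc, Units.inv_mul, one_mul]
    · rfl
  right_inv v := by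
    apply Prod.ext
    · show (u : ZMod p) * (↑u⁻¹ * v.1) = v.1
      rw [← mul_assoc, Units.mul_inv, one_mul]
    · rfl

theorem orb_mv (u : (ZMod p)ˣ) (v w : ZMod p × A) :
    orb (mv u v) (mv u w) = (orb v w).map (mj u) := by
  obtain ⟨s, x⟩ := v
  obtain ⟨t, y⟩ := w
  show orb ((u : ZMod p) * s, x) ((u : ZMod p) * t, y) = _
  by_cases h : s = t
  · subst h
    by_cases hxy : x = y
    · subst hxy
      rw [orb_self, orb_self]
      rfl
    · rw [orb_same hxy, orb_same hxy]
      rfl
  · have h1 : (u : ZMod p) * s - u * t ≠ 0 := by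
      rw [← mul_sub]
      exact unit_mul_ne (sub_ne_zero.2 h)
    rw [orb_diff h1, orb_diff (sub_ne_zero.2 h), Option.map_some, mj_some, mc_cl]
    congr 3
    rw [cl_eq_iff]
    left
    ring

theorem G2_mj (u : (ZMod p)ˣ) (χ : J2 p → Bool) (v w : ZMod p × A) :
    (G2 A (χ ∘ mj u)).Adj v w ↔ (G2 A χ).Adj (mv u v) (mv u w) := by
  rw [GR_adj, GR_adj, orb_mv]
  constructor
  · rintro ⟨j, h1, h2⟩
    exact ⟨mj u j, by rw [h1]; rfl, h2⟩
  · rintro ⟨j, h1, h2⟩
    obtain ⟨j', h3, rfl⟩ := Option.map_eq_some_iff.1 h1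
    exact ⟨j', h3, h2⟩

theorem PV_mj {n : ℕ} {P : SimpleGraph (Fin n) → Prop} (u : (ZMod p)ˣ) (χ : J2 p → Bool) :
    PV P (ZMod p × A) (G2 A (χ ∘ mj u)) ↔ PV P (ZMod p × A) (G2 A χ) := by
  constructor
  · rintro ⟨e, he⟩
    refine ⟨(mv u).symm.trans e, ?_⟩
    convert he using 1
    ext a b
    rw [pve_map_adj, pve_map_adj, G2_mj]
    rfl
  · rintro ⟨e, he⟩
    refine ⟨(mv u).trans e, ?_⟩
    convert he using 1
    ext a b
    rw [pve_map_adj, pve_map_adj, G2_mj]
    simp

variable [NeZero p]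

noncomputable instance : Fintype (CC p) := by
  classical
  exact Subtype.fintype _

instance : DecidableEq (CC p) := fun a b => decidable_of_iff (a.1 = b.1) Subtype.ext_iff.symm

theorem sgn_mj (u : (ZMod p)ˣ) (χ : J2 p → Bool) : sgn (χ ∘ mj u) = sgn χ := by
  unfold sgn
  exact Equiv.prod_comp (mj u) (fun j => if χ j = true then (-1 : ℤ) else 1)

/-- the eight configurations -/
def E8 (t : Bool × Bool × Bool) : J2 p → Bool
  | none => t.1
  | some (_, true) => t.2.1
  | some (_, false) => t.2.2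

/-- sign -/
def sg (b : Bool) : ℤ := if b = true then -1 else 1

theorem sgn_E8 (t : Bool × Bool × Bool) :
    sgn (E8 (p := p) t) = sg t.1 * (sg t.2.1 * sg t.2.2) ^ Fintype.card (CC p) := by
  unfold sgn
  rw [Fintype.prod_option, Fintype.prod_prod_type]
  congr 1
  have : ∀ e : CC p, (∏ b : Bool, if E8 (p := p) t (some (e, b)) = true then (-1 : ℤ) else 1) =
      sg t.2.1 * sg t.2.2 := by
    intro e
    rw [Fintype.prod_bool]
    rfl
  rw [Finset.prod_congr rfl fun e _ => this e, Finset.prod_const, Finset.card_univ]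

theorem card_CC (hp : p.Prime) (h2 : p ≠ 2) : 2 * Fintype.card (CC p) = p - 1 := by
  classical
  have : Fact p.Prime := ⟨hp⟩
  have h1 : (univ.filter fun d : ZMod p => d ≠ 0).card = p - 1 := by
    rw [Finset.filter_ne', Finset.card_erase_of_mem (Finset.mem_univ _), Finset.card_univ,
      ZMod.card]
  rw [← h1]
  let F : ZMod p → CC p := fun d => if h : d = 0 then cl 1 one_ne_zero else cl d h
  have h3 := Finset.card_eq_sum_card_fiberwise (f := F) (s := univ.filter fun d : ZMod p => d ≠ 0)
    (t := univ) (fun x _ => Finset.mem_coe.2 (Finset.mem_univ _))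
  rw [h3]
  have h4 : ∀ e : CC p, ((univ.filter fun d : ZMod p => d ≠ 0).filter fun d => F d = e).card = 2 := by
    intro e
    obtain ⟨d, hd, rfl⟩ := cl_exists e
    have hne : d ≠ -d := by
      intro h
      have h5 : (2 : ZMod p) * d = 0 := by
        rw [two_mul]
        nth_rewrite 2 [h]
        ring
      rcases mul_eq_zero.1 h5 with h6 | h6
      · have h7 : ((2 : ℕ) : ZMod p) = 0 := by exact_mod_cast h6
        rw [ZMod.natCast_eq_zero_iff] at h7
        have := Nat.le_of_dvd (by norm_num) h7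
        have := hp.two_le
        omega
      · exact hd h6
    have h5 : ((univ.filter fun d : ZMod p => d ≠ 0).filter fun d' => F d' = cl d hd) = {d, -d} := by
      ext x
      rw [Finset.mem_filter, Finset.mem_filter, Finset.mem_insert, Finset.mem_singleton]
      constructor
      · rintro ⟨⟨-, h6⟩, h7⟩
        simp only [F, dif_neg h6] at h7
        exact cl_eq_iff.1 h7
      · intro h6
        have h7 : x ≠ 0 := by
          rcases h6 with rfl | rfl
          · exact hd
          · simpa using hd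
        refine ⟨⟨Finset.mem_univ _, h7⟩, ?_⟩
        simp only [F, dif_neg h7]
        exact cl_eq_iff.2 h6
    rw [h5, Finset.card_pair hne]
  rw [Finset.sum_congr rfl fun e _ => h4 e, Finset.sum_const, Finset.card_univ, smul_eq_mul,
    mul_comm]

theorem eight {n d r l a : ℕ} [Fact r.Prime] [Fact l.Prime] (hp : p.Prime)
    (hpl : p - 1 = 2 * l ^ a) [AddCommGroup A] [Fintype A] [Nontrivial A]
    (htors : ∀ x : A, r • x = 0) {c : A ≃+ A} {N : ℕ} (hN : ∀ x, c^[N] x = x)
    (hpN : Nat.Coprime p N) (htr : ∀ x y : A, x ≠ 0 → y ≠ 0 → ∃ k : ℕ, c^[k] x = y)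
    {P : SimpleGraph (Fin n) → Prop} (hP : GP n d P) (hV : Fintype.card (ZMod p × A) = n)
    (hd : d < n.choose 2) :
    (∑ t : Bool × Bool × Bool, sg t.1 * (sg t.2.1 * sg t.2.2) *
      bit (PV P (ZMod p × A) (G2 A (E8 t)))) ≡ 0 [ZMOD l] := by
  classical
  have : Fact p.Prime := ⟨hp⟩
  have hl : l.Prime := Fact.out
  have hla : 1 ≤ l ^ a := Nat.one_le_pow _ _ hl.pos
  have hp2 : p ≠ 2 := by
    rintro rfl
    omega
  obtain ⟨u, hu⟩ := IsCyclic.exists_generator (α := (ZMod p)ˣ)
  have hord : orderOf u = p - 1 := by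
    rw [orderOf_eq_card_of_forall_mem_zpowers hu, Nat.card_eq_fintype_card, ZMod.card_units]
  have hu1 : u ^ (l ^ a) = -1 := by
    have h1 : (u ^ (l ^ a)) ^ 2 = 1 := by
      rw [← pow_mul, mul_comm, ← hpl, ← hord, pow_orderOf_eq_one]
    have h2 : u ^ (l ^ a) ≠ 1 := by
      intro h
      have := orderOf_dvd_of_pow_eq_one h
      have := Nat.le_of_dvd (by omega) this
      omega
    have h3 : ((u ^ (l ^ a) : (ZMod p)ˣ) : ZMod p) ^ 2 = 1 := by
      rw [← Units.val_pow_eq_pow_val, h1]
      rfl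
    rw [sq] at h3
    rcases mul_self_eq_one_iff.1 h3 with h4 | h4
    · exact absurd (Units.ext (by simpa using h4)) h2
    · exact Units.ext (by simpa using h4)
  set f : (J2 p → Bool) → ℤ := fun χ => sgn χ * bit (PV P (ZMod p × A) (G2 A χ)) with hf
  have hfin : ∀ χ, f (χ ∘ mj u) = f χ := by
    intro χ
    simp only [hf]
    rw [sgn_mj, bit_congr (PV_mj u χ)]
  have hpow : ∀ (k : ℕ) (χ : J2 p → Bool),
      (fun χ : J2 p → Bool => χ ∘ mj u)^[k] χ = χ ∘ mj (u ^ k) := by
    intro k
    induction k with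
    | zero =>
      intro χ
      funext j
      rcases j with _ | ⟨e, b⟩
      · rfl
      · show χ (some (e, b)) = χ (mj (u ^ 0) (some (e, b)))
        rw [mj_some, pow_zero, mc_one]
    | succ k ih =>
      intro χ
      rw [Function.iterate_succ_apply, ih]
      funext j
      rcases j with _ | ⟨e, b⟩
      · rfl
      · show χ (mj u (mj (u ^ k) (some (e, b)))) = χ (mj (u ^ (k + 1)) (some (e, b)))
        rw [mj_some, mj_some, mj_some, mc_mul, pow_succ']
  have hid : (fun χ : J2 p → Bool => χ ∘ mj u)^[l ^ a] = id := by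
    funext χ j
    rw [hpow, hu1]
    rcases j with _ | ⟨e, b⟩
    · rfl
    · show χ (mj (-1) (some (e, b))) = χ (some (e, b))
      rw [mj_some, mc_neg_one]
  have h1 := fix_modEq (p := l) (k := a) (fun χ : J2 p → Bool => χ ∘ mj u) hid f hfin
  have h2 := relation2 htors hN hpN htr hP hV hd
  have h3 : ∑ χ, f χ = 0 := h2
  rw [h3] at h1
  -- the fixed configurations
  have h4 : (univ.filter fun χ : J2 p → Bool => χ ∘ mj u = χ) =
      univ.image (E8 (p := p)) := by
    ext χ
    rw [Finset.mem_filter, Finset.mem_image]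
    constructor
    · rintro ⟨-, h5⟩
      have h6 : ∀ (k : ℕ) (b : Bool), χ (some (cl ((u ^ k : (ZMod p)ˣ) : ZMod p) (Units.ne_zero _), b)) =
          χ (some (cl 1 one_ne_zero, b)) := by
        intro k b
        induction k with
        | zero =>
          congr 3
          rw [cl_eq_iff]
          left
          simp
        | succ k ih =>
          rw [← ih]
          have h7 := congrFun h5 (some (cl ((u ^ k : (ZMod p)ˣ) : ZMod p) (Units.ne_zero _), b))
          rw [← h7]
          show _ = χ (mj u (some (cl ((u ^ k : (ZMod p)ˣ) : ZMod p) (Units.ne_zero _), b)))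
          rw [mj_some, mc_cl]
          congr 3
          rw [cl_eq_iff]
          left
          rw [pow_succ']
          push_cast
          ring
      refine ⟨(χ none, χ (some (cl 1 one_ne_zero, true)), χ (some (cl 1 one_ne_zero, false))),
        Finset.mem_univ _, ?_⟩
      funext j
      rcases j with _ | ⟨e, b⟩
      · rfl
      · obtain ⟨d, hd, rfl⟩ := cl_exists e
        obtain ⟨k, hk⟩ : ∃ k : ℕ, u ^ k = Units.mk0 d hd := by
          have := hu (Units.mk0 d hd)
          rw [← mem_powers_iff_mem_zpowers] at this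
          exact this
        have h8 := h6 k b
        have h9 : cl ((u ^ k : (ZMod p)ˣ) : ZMod p) (Units.ne_zero _) = cl d hd := by
          rw [cl_eq_iff]
          left
          rw [hk]
          rfl
        rw [h9] at h8
        rw [h8]
        cases b <;> rfl
    · rintro ⟨t, -, rfl⟩
      refine ⟨Finset.mem_univ _, ?_⟩
      funext j
      rcases j with _ | ⟨e, _ | _⟩ <;> rfl
  have hinj : Function.Injective (E8 (p := p)) := by
    rintro ⟨b, δ, α⟩ ⟨b', δ', α'⟩ h
    have e1 := congrFun h none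
    have e2 := congrFun h (some (cl 1 one_ne_zero, true))
    have e3 := congrFun h (some (cl 1 one_ne_zero, false))
    simp only [E8] at e1 e2 e3
    rw [e1, e2, e3]
  rw [h4, Finset.sum_image (fun x _ y _ h => hinj h)] at h1
  -- signs
  have hc : Fintype.card (CC p) = l ^ a := by
    have := card_CC hp hp2
    omega
  have hs : ∀ x : ℤ, x = 1 ∨ x = -1 → x ^ (l ^ a) ≡ x [ZMOD l] := by
    rintro x (rfl | rfl)
    · rw [one_pow]
    · rcases hl.eq_two_or_odd' with h2 | h2
      · subst h2
        rcases Nat.even_or_odd (2 ^ a) with h3 | h3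
        · rw [h3.neg_one_pow]
          decide
        · rw [h3.neg_one_pow]
      · rw [(h2.pow (n := a)).neg_one_pow]
  have hsg : ∀ b c : Bool, sg b * sg c = 1 ∨ sg b * sg c = -1 := by decide
  have h5 : (∑ t : Bool × Bool × Bool, f (E8 t)) ≡ (∑ t : Bool × Bool × Bool,
      sg t.1 * (sg t.2.1 * sg t.2.2) * bit (PV P (ZMod p × A) (G2 A (E8 t)))) [ZMOD l] := by
    have : ∀ T : Finset (Bool × Bool × Bool), (∑ t ∈ T, f (E8 t)) ≡ (∑ t ∈ T,
        sg t.1 * (sg t.2.1 * sg t.2.2) * bit (PV P (ZMod p × A) (G2 A (E8 t)))) [ZMOD l] := by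
      intro T
      induction T using Finset.induction_on with
      | empty => rfl
      | insert t T ht ih =>
        rw [Finset.sum_insert ht, Finset.sum_insert ht]
        refine Int.ModEq.add ?_ ih
        simp only [hf]
        refine Int.ModEq.mul_right _ ?_
        rw [sgn_E8, hc]
        exact Int.ModEq.mul_left _ (hs _ (hsg _ _))
    exact this _
  exact h5.symm.trans h1.symm

/-- adjacency in the eight graphs -/
theorem E8_adj (t : Bool × Bool × Bool) (s s' : ZMod p) (x x' : A) :
    (G2 A (E8 t)).Adj (s, x) (s', x') ↔ (s = s' ∧ x ≠ x' ∧ t.1 = true) ∨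
      (s ≠ s' ∧ x = x' ∧ t.2.1 = true) ∨ (s ≠ s' ∧ x ≠ x' ∧ t.2.2 = true) := by
  rw [GR_adj]
  by_cases h : s = s'
  · subst h
    by_cases hx : x = x'
    · subst hx
      rw [orb_self]
      simp
    · rw [orb_same hx]
      simp [hx, E8]
  · rw [orb_diff (sub_ne_zero.2 h)]
    by_cases hx : x = x'
    · subst hx
      simp [h, E8]
    · simp [h, hx, E8]

end Pool.Agent.H512.DT
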