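import Pool.Agent.H512.DT.CycA

set_option autoImplicit false
set_option linter.unusedSectionVars false

/-!
MP_257582_lc. The criteria for `n = p q`, `p` not a divisor of `q - 1`, and a subgroup of the units modulo `p`
the order of which modulo `± 1` is a power of a prime.
-/

namespace Pool.Agent.H512.DT

open Finset
open Pool.Agent.H119R2.Kp (GP PV pve_map_adj)
open Pool.Agent.TH669.KP (GR GR_adj sgn bit bit_pos bit_neg bit_congr)

variable {p : ℕ} {A : Type} [DecidableEq A]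

theorem fix_mj {χ : J2 p → Bool} {u : (ZMod p)ˣ} (h : χ ∘ mj u = χ) (k : ℕ) (e : CC p) (b : Bool) :
    χ (some (mc (u ^ k) e, b)) = χ (some (e, b)) := by
  induction k with
  | zero => rw [pow_zero, mc_one]
  | succ k ih =>
    rw [← ih, pow_succ', ← mc_mul]
    exact congrFun h (some (mc (u ^ k) e, b))

/-- the same coordinates, in the form needed here -/
def e2 [NeZero p] {n q : ℕ} (K : Co n p q 0 A) : ZMod p × A ≃ Fin n :=
  ((Equiv.prodCongr (ka p).symm (Equiv.refl A)).trans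
    (Equiv.sumEmpty (Fin p × A) (Fin 0)).symm).trans K.e

theorem e2_apply [NeZero p] {n q : ℕ} (K : Co n p q 0 A) (z : ZMod p) (x : A) :
    e2 K (z, x) = K.e (.inl ((ka p).symm z, x)) := rfl

theorem e2_div [NeZero p] {n q : ℕ} (K : Co n p q 0 A) (z : ZMod p) (x : A) :
    (((e2 K (z, x)).1 / q : ℕ) : ZMod p) = z := by
  rw [e2_apply, K.div]
  exact (ka p).apply_symm_apply z

theorem e2_mod [NeZero p] {n q : ℕ} (K : Co n p q 0 A) (z : ZMod p) (x : A) :
    (e2 K (z, x)).1 % q = (K.f x).1 := by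
  rw [e2_apply, K.mod]

theorem e2_div_eq [NeZero p] {n q : ℕ} (K : Co n p q 0 A) {z z' : ZMod p} {x x' : A}
    (h : (e2 K (z, x)).1 / q = (e2 K (z', x')).1 / q) : z = z' := by
  rw [← e2_div K z x, h, e2_div]

variable {n q d : ℕ} {P : SimpleGraph (Fin n) → Prop} (hP : GP n d P)

/-- a class on -/
theorem cl_on [Fact p.Prime] {χ : J2 p → Bool} {u : (ZMod p)ˣ} (h : χ ∘ mj u = χ) {b : Bool}
    {e : CC p} (h2 : χ (some (e, b)) = true) {δ : (ZMod p)ˣ}
    (hδ : e = cl (δ : ZMod p) (Units.ne_zero δ)) {z z' : ZMod p} (hN : Near u z z')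
    (hne : (δ : ZMod p) * z - δ * z' ≠ 0) : χ (some (cl ((δ : ZMod p) * z - δ * z') hne, b)) = true := by
  obtain ⟨j, hj⟩ := hN
  rw [← h2, ← fix_mj h j e b, hδ, mc_cl]
  congr 3
  rw [cl_eq_iff]
  push_cast
  rcases hj with hj | hj
  · left
    rw [hj]
    ring
  · right
    rw [hj]
    ring

include hP in
theorem strong2 [Fact p.Prime] (K : Co n p q 0 A) {χ : J2 p → Bool} {u : (ZMod p)ˣ}
    (h : χ ∘ mj u = χ) {e : CC p} (h2 : χ (some (e, false)) = true) (h3 : P (tens n q u)) :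
    PV P (ZMod p × A) (G2 A χ) := by
  obtain ⟨d0, hd0, he⟩ := cl_exists e
  let δ : (ZMod p)ˣ := Units.mk0 _ hd0
  refine PV.mono hP ((e2 K).symm.trans (mv δ)) ?_ ((PV_self hP).2 h3)
  intro v w hvw
  obtain ⟨hv, hw, hN, hm⟩ := hvw
  obtain ⟨⟨a, x⟩, rfl⟩ := (e2 K).surjective v
  obtain ⟨⟨b, y⟩, rfl⟩ := (e2 K).surjective w
  rw [e2_div, e2_div] at hN
  rw [e2_mod, e2_mod] at hm
  rw [Equiv.trans_apply, Equiv.trans_apply, Equiv.symm_apply_apply, Equiv.symm_apply_apply, GR_adj]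
  have hab : (δ : ZMod p) * a - δ * b ≠ 0 := by
    rw [← mul_sub]
    exact unit_mul_ne (sub_ne_zero.2 hN.ne)
  refine ⟨some (cl ((δ : ZMod p) * a - δ * b) hab, decide (x = y)), orb_diff hab x y, ?_⟩
  rw [decide_eq_false (fun h5 => hm (by rw [h5]))]
  exact cl_on h h2 (δ := δ) he hN hab

include hP in
theorem box2 [Fact p.Prime] (K : Co n p q 0 A) {χ : J2 p → Bool} {u : (ZMod p)ˣ}
    (h : χ ∘ mj u = χ) (h0 : χ none = true) {e : CC p} (h2 : χ (some (e, true)) = true)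
    (h3 : P (box n q u)) : PV P (ZMod p × A) (G2 A χ) := by
  obtain ⟨d0, hd0, he⟩ := cl_exists e
  let δ : (ZMod p)ˣ := Units.mk0 _ hd0
  refine PV.mono hP ((e2 K).symm.trans (mv δ)) ?_ ((PV_self hP).2 h3)
  intro v w hvw
  obtain ⟨hne, hv, hw, hN⟩ := hvw
  obtain ⟨⟨a, x⟩, rfl⟩ := (e2 K).surjective v
  obtain ⟨⟨b, y⟩, rfl⟩ := (e2 K).surjective w
  rw [Equiv.trans_apply, Equiv.trans_apply, Equiv.symm_apply_apply, Equiv.symm_apply_apply, GR_adj]
  rcases hN with hN | ⟨hN, hm⟩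
  · have hab : a = b := e2_div_eq K hN
    subst hab
    have hxy : x ≠ y := fun h5 => hne (by rw [h5])
    exact ⟨none, orb_same hxy, h0⟩
  · rw [e2_div, e2_div] at hN
    rw [e2_mod, e2_mod] at hm
    have hab : (δ : ZMod p) * a - δ * b ≠ 0 := by
      rw [← mul_sub]
      exact unit_mul_ne (sub_ne_zero.2 hN.ne)
    have hxy : x = y := K.f.injective (Fin.ext hm)
    refine ⟨some (cl ((δ : ZMod p) * a - δ * b) hab, decide (x = y)), orb_diff hab x y, ?_⟩
    rw [decide_eq_true hxy]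
    exact cl_on h h2 (δ := δ) he hN hab

include hP in
theorem cops2 [Fact p.Prime] (K : Co n p q 0 A) {χ : J2 p → Bool} {u : (ZMod p)ˣ}
    (h : χ ∘ mj u = χ) {e : CC p} (h2 : χ (some (e, true)) = true)
    (h3 : P (cops n q u)) : PV P (ZMod p × A) (G2 A χ) := by
  obtain ⟨d0, hd0, he⟩ := cl_exists e
  let δ : (ZMod p)ˣ := Units.mk0 _ hd0
  refine PV.mono hP ((e2 K).symm.trans (mv δ)) ?_ ((PV_self hP).2 h3)
  intro v w hvw
  obtain ⟨hne, hv, hw, hN, hm⟩ := hvw
  obtain ⟨⟨a, x⟩, rfl⟩ := (e2 K).surjective v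
  obtain ⟨⟨b, y⟩, rfl⟩ := (e2 K).surjective w
  rw [Equiv.trans_apply, Equiv.trans_apply, Equiv.symm_apply_apply, Equiv.symm_apply_apply, GR_adj]
  rw [e2_div, e2_div] at hN
  rw [e2_mod, e2_mod] at hm
  have hab : (δ : ZMod p) * a - δ * b ≠ 0 := by
    rw [← mul_sub]
    exact unit_mul_ne (sub_ne_zero.2 hN.ne)
  have hxy : x = y := K.f.injective (Fin.ext hm)
  refine ⟨some (cl ((δ : ZMod p) * a - δ * b) hab, decide (x = y)), orb_diff hab x y, ?_⟩
  rw [decide_eq_true hxy]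
  exact cl_on h h2 (δ := δ) he hN hab

include hP in
theorem rows2 [Fact p.Prime] (K : Co n p q 0 A) {χ : J2 p → Bool} (h0 : χ none = true)
    (h3 : P (rows n q p)) : PV P (ZMod p × A) (G2 A χ) := by
  refine PV.mono hP (e2 K).symm ?_ ((PV_self hP).2 h3)
  intro v w hvw
  obtain ⟨hne, hv, hw, hN⟩ := hvw
  obtain ⟨⟨a, x⟩, rfl⟩ := (e2 K).surjective v
  obtain ⟨⟨b, y⟩, rfl⟩ := (e2 K).surjective w
  rw [Equiv.symm_apply_apply, Equiv.symm_apply_apply, GR_adj]
  have hab : a = b := e2_div_eq K hN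
  subst hab
  have hxy : x ≠ y := fun h5 => hne (by rw [h5])
  exact ⟨none, orb_same hxy, h0⟩

include hP in
theorem weak2_d [Fact p.Prime] (K : Co n p q 0 A) {χ : J2 p → Bool}
    (h : ∀ j, χ j = true → ∃ e : CC p, j = some (e, true))
    (h1 : PV P (ZMod p × A) (G2 A χ)) : P (cols n q p) := by
  rw [← PV_self hP]
  refine PV.mono hP (e2 K) ?_ h1
  intro v w hvw
  have hne := hvw.ne
  rw [GR_adj] at hvw
  obtain ⟨j, hj, hj1⟩ := hvw
  obtain ⟨e, rfl⟩ := h j hj1
  refine ⟨fun h2 => hne ((e2 K).injective h2), ?_⟩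
  obtain ⟨s, x⟩ := v
  obtain ⟨t, y⟩ := w
  refine ⟨K.lt _ _, K.lt _ _, ?_⟩
  rw [e2_mod, e2_mod]
  by_cases hst : s = t
  · subst hst
    have hxy : x ≠ y := fun h2 => hne (by rw [h2])
    rw [orb_same hxy] at hj
    cases hj
  · rw [orb_diff (sub_ne_zero.2 hst)] at hj
    simp only [Option.some.injEq, Prod.mk.injEq, decide_eq_true_eq] at hj
    rw [hj.2]

include hP in
theorem weak2_b [Fact p.Prime] (K : Co n p q 0 A) {χ : J2 p → Bool}
    (h : ∀ j, χ j = true → j = none)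
    (h1 : PV P (ZMod p × A) (G2 A χ)) : P (rows n q p) := by
  rw [← PV_self hP]
  refine PV.mono hP (e2 K) ?_ h1
  intro v w hvw
  have hne := hvw.ne
  rw [GR_adj] at hvw
  obtain ⟨j, hj, hj1⟩ := hvw
  obtain rfl := h j hj1
  refine ⟨fun h2 => hne ((e2 K).injective h2), ?_⟩
  obtain ⟨s, x⟩ := v
  obtain ⟨t, y⟩ := w
  refine ⟨K.lt _ _, K.lt _ _, ?_⟩
  by_cases hst : s = t
  · subst hst
    rw [e2_apply, e2_apply, K.div, K.div]
  · rw [orb_diff (sub_ne_zero.2 hst)] at hj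
    cases hj

theorem iter_mj (u : (ZMod p)ˣ) (k : ℕ) (χ : J2 p → Bool) :
    (fun χ : J2 p → Bool => χ ∘ mj u)^[k] χ = χ ∘ mj (u ^ k) := by
  induction k generalizing χ with
  | zero =>
    funext j
    rcases j with _ | ⟨e, b⟩
    · rfl
    · show χ (some (e, b)) = χ (mj (u ^ 0) (some (e, b)))
      rw [mj_some, pow_zero, mc_one]
  | succ k ih =>
    rw [Function.iterate_succ_apply, ih]
    funext j
    rcases j with _ | ⟨e, b⟩
    · rfl
    · show χ (mj u (mj (u ^ k) (some (e, b)))) = χ (mj (u ^ (k + 1)) (some (e, b)))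
      rw [mj_some, mj_some, mj_some, mc_mul, pow_succ']

/-- the signed number of a family of configurations that agrees with `P` at the invariant
configurations vanishes modulo `l` -/
theorem ext {n r k q l a d : ℕ} [Fact p.Prime] [Fact r.Prime] [Fact l.Prime] (hq : q = r ^ k)
    (hk : k ≠ 0) (hn : n = p * q + 0) {P : SimpleGraph (Fin n) → Prop} (hP : GP n d P)
    (hd : d < n.choose 2) (u : (ZMod p)ˣ) (hu : u ^ l ^ a = 1 ∨ u ^ l ^ a = -1)
    (hpq : Nat.Coprime p (q - 1)) (C : (J2 p → Bool) → Prop)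
    (hC : ∀ χ, C (χ ∘ mj u) ↔ C χ)
    (hfix : ∀ (A : Type) [DecidableEq A], Co n p q 0 A →
      ∀ χ : J2 p → Bool, χ ∘ mj u = χ → (PV P (ZMod p × A) (G2 A χ) ↔ C χ)) :
    (∑ χ : J2 p → Bool, sgn χ * bit (C χ)) ≡ 0 [ZMOD l] := by
  classical
  obtain ⟨B⟩ := exists_blk r k hk
  let _ : AddCommGroup B.A := B.grp
  let _ : Fintype B.A := B.fin
  let _ : DecidableEq B.A := B.dec
  have hr : r.Prime := Fact.out
  have hcard : Fintype.card B.A = q := B.card.trans hq.symm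
  have hnt : Nontrivial B.A := by
    rw [← Fintype.one_lt_card_iff_nontrivial, B.card]
    exact Nat.one_lt_pow hk hr.one_lt
  obtain ⟨K⟩ := exists_co hn hcard
  have hV : Fintype.card (ZMod p × B.A) = n := by
    rw [Fintype.card_congr (e2 K), Fintype.card_fin]
  have hN : ∀ x : B.A, B.c^[q - 1] x = x := by
    rw [hq]
    exact B.per
  have hrel := relation2 (A := B.A) B.tors hN hpq B.trans hP hV hd
  refine contra (l := l) (k := a) (fun χ : J2 p → Bool => χ ∘ mj u) ?_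
    (fun χ => sgn χ * bit (PV P (ZMod p × B.A) (G2 B.A χ))) _ ?_ ?_ hrel ?_
  · funext χ
    rw [iter_mj]
    funext j
    rcases j with _ | ⟨e, b⟩
    · rfl
    · show χ (mj (u ^ l ^ a) (some (e, b))) = χ (some (e, b))
      rcases hu with hu | hu
      · rw [hu, mj_some, mc_one]
      · rw [hu, mj_some, mc_neg_one]
  · intro χ
    show sgn (χ ∘ mj u) * bit (PV P (ZMod p × B.A) (G2 B.A (χ ∘ mj u))) = _
    rw [sgn_mj, bit_congr (PV_mj u χ)]
  · intro χ
    show sgn (χ ∘ mj u) * bit (C (χ ∘ mj u)) = _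
    rw [sgn_mj, bit_congr (hC χ)]
  · intro χ hχ
    show sgn χ * bit (PV P (ZMod p × B.A) (G2 B.A χ)) = sgn χ * bit (C χ)
    rw [bit_congr (hfix B.A K χ hχ)]

theorem ext_A {n r k q l a d : ℕ} [Fact p.Prime] [Fact r.Prime] [Fact l.Prime] (hq : q = r ^ k)
    (hk : k ≠ 0) (hn : n = p * q + 0) {P : SimpleGraph (Fin n) → Prop} (hP : GP n d P)
    (hd : d < n.choose 2) (u : (ZMod p)ˣ) (hu : u ^ l ^ a = 1 ∨ u ^ l ^ a = -1)
    (hpq : Nat.Coprime p (q - 1)) (h1 : P (tens n q u)) (h2 : P (box n q u))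
    (h4 : ¬ P (rows n q p)) (h5 : ¬ P (cols n q p)) : False := by
  have hl2 : 2 ≤ l := (Fact.out : l.Prime).two_le
  have h6 := ext hq hk hn hP hd u hu hpq
    (Cc (fun j : J2 p => j = none) (fun j => ∃ e : CC p, j = some (e, true)))
    (fun χ => Cc_comp (mj u) (fun j => by
        rcases j with _ | ⟨e, b⟩
        · exact Iff.rfl
        · rw [mj_some]
          simp) (fun j => by
        rcases j with _ | ⟨e, b⟩
        · exact Iff.rfl
        · rw [mj_some]
          simp) χ) (by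
      intro A _ K χ hχ
      constructor
      · intro h7
        by_contra h8
        rcases not_Cc h8 with h9 | h9
        · exact h5 (weak2_d hP K h9 h7)
        · exact h4 (weak2_b hP K h9 h7)
      · rintro (⟨j, h7, h8, h9⟩ | ⟨⟨j, rfl, h7⟩, ⟨i, ⟨e, rfl⟩, h8⟩⟩)
        · rcases j with _ | ⟨e, b⟩
          · exact absurd rfl h7
          · cases b
            · exact strong2 hP K hχ h9 h1
            · exact absurd ⟨e, rfl⟩ h8
        · exact box2 hP K hχ h7 h8 h2)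
  rw [sum_Cc (B := fun j : J2 p => j = none) (D := fun j => ∃ e : CC p, j = some (e, true))
    ⟨none, rfl⟩ ⟨some (cl 1 one_ne_zero, true), _, rfl⟩
    (by rintro j rfl ⟨e, h⟩; cases h)] at h6
  have h7 := (Int.modEq_zero_iff_dvd.1 h6)
  have h8 := Int.le_of_dvd one_pos h7
  omega

theorem ext_B {n r k q l a d : ℕ} [Fact p.Prime] [Fact r.Prime] [Fact l.Prime] (hq : q = r ^ k)
    (hk : k ≠ 0) (hn : n = p * q + 0) {P : SimpleGraph (Fin n) → Prop} (hP : GP n d P)
    (hd : d < n.choose 2) (u : (ZMod p)ˣ) (hu : u ^ l ^ a = 1 ∨ u ^ l ^ a = -1)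
    (hpq : Nat.Coprime p (q - 1)) (h1 : P (tens n q u)) (h2 : P (rows n q p))
    (h2' : P (cops n q u)) (h4 : ¬ P ⊥) : False := by
  have hl2 : 2 ≤ l := (Fact.out : l.Prime).two_le
  have h6 := ext hq hk hn hP hd u hu hpq (fun χ => ∃ j, χ j = true)
    (fun χ => by
      constructor
      · rintro ⟨j, hj⟩
        exact ⟨mj u j, hj⟩
      · rintro ⟨j, hj⟩
        exact ⟨(mj u).symm j, by simpa using hj⟩) (by
      intro A _ K χ hχ
      constructor
      · intro h7
        by_contra h8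
        apply h4
        rw [← PV_self hP]
        refine PV.mono hP (e2 K) ?_ h7
        intro v w hvw
        rw [GR_adj] at hvw
        obtain ⟨j, -, hj⟩ := hvw
        exact absurd ⟨j, hj⟩ h8
      · rintro ⟨j, h9⟩
        rcases j with _ | ⟨e, b⟩
        · exact rows2 hP K h9 h2
        · cases b
          · exact strong2 hP K hχ h9 h1
          · exact cops2 hP K hχ h9 h2')
  rw [sum_some] at h6
  have h7 := (Int.modEq_zero_iff_dvd.1 h6)
  have h8 := Int.le_of_dvd one_pos (dvd_neg.2 h7)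
  omega

end Pool.Agent.H512.DT
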