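import Pool.Agent.H512.DT.Eight
import Pool.Agent.H512.BD.Tr

set_option autoImplicit false
set_option linter.unusedSectionVars false

/-!
MP_257582_lc. The eight graphs on `Fin n`, `n = p q`; distances in them.
-/

namespace Pool.Agent.H512.DT

open Finset
open Pool.Agent.H119R2.Kp (GP PV pve_map_adj)
open Pool.Agent.H119R2.Kp.RelAux (PV_iff)
open Pool.Agent.TH669.KP (GR GR_adj rel_orb sgn bit bit_pos bit_neg bit_congr)

/-- an elementary abelian group with a transitive automorphism of order dividing `q - 1` -/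
structure Blk (r q : ℕ) where
  A : Type
  grp : AddCommGroup A
  fin : Fintype A
  dec : DecidableEq A
  c : A ≃+ A
  card : Fintype.card A = q
  tors : ∀ x : A, r • x = 0
  trans : ∀ x y : A, x ≠ 0 → y ≠ 0 → ∃ k : ℕ, c^[k] x = y
  per : ∀ x : A, c^[q - 1] x = x

theorem exists_blk (r a : ℕ) [hr : Fact r.Prime] (ha : a ≠ 0) : Nonempty (Blk r (r ^ a)) := by
  classical
  have : Fintype (GaloisField r a) := Fintype.ofFinite _
  have hcard : Fintype.card (GaloisField r a) = r ^ a := by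
    rw [← Nat.card_eq_fintype_card]
    exact GaloisField.card r a ha
  obtain ⟨g, hg⟩ := IsCyclic.exists_generator (α := (GaloisField r a)ˣ)
  let c : GaloisField r a ≃+ GaloisField r a :=
    { toFun := fun x => g * x
      invFun := fun x => (g⁻¹ : (GaloisField r a)ˣ) * x
      left_inv := fun x => by
        show ((g⁻¹ : (GaloisField r a)ˣ) : GaloisField r a) * (g * x) = x
        rw [← mul_assoc, Units.inv_mul, one_mul]
      right_inv := fun x => by
        show (g : GaloisField r a) * (((g⁻¹ : (GaloisField r a)ˣ) : GaloisField r a) * x) = x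
        rw [← mul_assoc, Units.mul_inv, one_mul]
      map_add' := fun x y => mul_add _ _ _ }
  have hc : ∀ (k : ℕ) (x : GaloisField r a), c^[k] x = (g : GaloisField r a) ^ k * x := by
    intro k x
    induction k with
    | zero => simp
    | succ k ih =>
      rw [Function.iterate_succ_apply', ih]
      show (g : GaloisField r a) * _ = _
      rw [pow_succ']
      ring
  refine ⟨{ A := GaloisField r a
            grp := inferInstance
            fin := inferInstance
            dec := inferInstance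
            c := c
            card := ?_
            tors := ?_
            trans := ?_
            per := ?_ }⟩
  · exact hcard
  · intro x
    rw [nsmul_eq_mul, CharP.cast_eq_zero, zero_mul]
  · intro x y hx hy
    have h1 := hg (Units.mk0 (y / x) (div_ne_zero hy hx))
    rw [← mem_powers_iff_mem_zpowers, Submonoid.mem_powers_iff] at h1
    obtain ⟨k, hk⟩ := h1
    refine ⟨k, ?_⟩
    rw [hc]
    have h2 := congrArg Units.val hk
    rw [Units.val_pow_eq_pow_val, Units.val_mk0] at h2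
    rw [h2, div_mul_cancel₀ _ hx]
  · intro x
    rw [hc, ← Units.val_pow_eq_pow_val, ← hcard, ← Fintype.card_units, pow_card_eq_one]
    simp

/-- the vertex `v` of `Fin n` has the coordinates `v / q` and `v % q`; same first coordinate: `b`, same
second coordinate: `δ`, both different: `α` -/
def grid (n q : ℕ) (t : Bool × Bool × Bool) : SimpleGraph (Fin n) where
  Adj u v := (u.1 / q = v.1 / q ∧ u.1 % q ≠ v.1 % q ∧ t.1 = true) ∨
    (u.1 / q ≠ v.1 / q ∧ u.1 % q = v.1 % q ∧ t.2.1 = true) ∨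
    (u.1 / q ≠ v.1 / q ∧ u.1 % q ≠ v.1 % q ∧ t.2.2 = true)
  symm := ⟨fun u v h => by
    rcases h with ⟨h1, h2, h3⟩ | ⟨h1, h2, h3⟩ | ⟨h1, h2, h3⟩
    · exact Or.inl ⟨h1.symm, h2.symm, h3⟩
    · exact Or.inr (Or.inl ⟨h1.symm, h2.symm, h3⟩)
    · exact Or.inr (Or.inr ⟨h1.symm, h2.symm, h3⟩)⟩
  loopless := ⟨fun u h => by
    rcases h with ⟨-, h, -⟩ | ⟨h, -⟩ | ⟨h, -⟩ <;> exact h rfl⟩

theorem exists_equiv {n p q : ℕ} [NeZero p] (hn : n = p * q) {A : Type} [DecidableEq A] [Fintype A]
    (hA : Fintype.card A = q) : ∃ e : ZMod p × A ≃ Fin n, ∀ t : Bool × Bool × Bool,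
      (G2 A (E8 t)).map e.toEmbedding = grid n q t := by
  subst hn
  let e1 : ZMod p ≃ Fin p := Fintype.equivFinOfCardEq (ZMod.card p)
  let e2 : A ≃ Fin q := Fintype.equivFinOfCardEq hA
  refine ⟨(Equiv.prodCongr e1 e2).trans finProdFinEquiv, fun t => ?_⟩
  ext u v
  obtain ⟨⟨s, x⟩, rfl⟩ := ((Equiv.prodCongr e1 e2).trans finProdFinEquiv).surjective u
  obtain ⟨⟨s', x'⟩, rfl⟩ := ((Equiv.prodCongr e1 e2).trans finProdFinEquiv).surjective v
  rw [pve_map_adj, Equiv.symm_apply_apply, Equiv.symm_apply_apply, E8_adj]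
  have h1 : ∀ (s : ZMod p) (x : A),
      (((Equiv.prodCongr e1 e2).trans finProdFinEquiv (s, x)).1) = (e2 x).1 + q * (e1 s).1 :=
    fun _ _ => rfl
  have h2 : ∀ (s : ZMod p) (x : A), ((e2 x).1 + q * (e1 s).1) / q = (e1 s).1 := by
    intro s x
    have hq : 0 < q := (Nat.zero_le _).trans_lt (e2 x).2
    rw [Nat.add_mul_div_left _ _ hq, Nat.div_eq_of_lt (e2 x).2, zero_add]
  have h3 : ∀ (s : ZMod p) (x : A), ((e2 x).1 + q * (e1 s).1) % q = (e2 x).1 := by
    intro s x
    rw [Nat.add_mul_mod_self_left, Nat.mod_eq_of_lt (e2 x).2]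
  unfold grid
  simp only [h1, h2, h3, Fin.val_inj, e1.injective.eq_iff, e2.injective.eq_iff, ne_eq]

theorem relation8 {n d p r k l a : ℕ} [Fact r.Prime] [Fact l.Prime] (hp : p.Prime)
    (hpl : p - 1 = 2 * l ^ a) (hk : k ≠ 0) (hpq : Nat.Coprime p (r ^ k - 1))
    {P : SimpleGraph (Fin n) → Prop} (hP : GP n d P) (hn : n = p * r ^ k)
    (hd : d < n.choose 2) :
    (∑ t : Bool × Bool × Bool, sg t.1 * (sg t.2.1 * sg t.2.2) * bit (P (grid n (r ^ k) t)))
      ≡ 0 [ZMOD l] := by
  classical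
  obtain ⟨B⟩ := exists_blk r k hk
  let _ := B.grp
  let _ := B.fin
  let _ := B.dec
  have hr : r.Prime := Fact.out
  have : NeZero p := ⟨hp.ne_zero⟩
  have : Nontrivial B.A := by
    rw [← Fintype.one_lt_card_iff_nontrivial, B.card]
    exact Nat.one_lt_pow hk hr.one_lt
  obtain ⟨e, he⟩ := exists_equiv (p := p) hn B.card
  have h1 := eight (A := B.A) hp hpl B.tors B.per hpq B.trans hP (by
    rw [Fintype.card_prod, ZMod.card, B.card, hn]) hd
  have h2 : ∀ t : Bool × Bool × Bool, bit (PV P (ZMod p × B.A) (G2 B.A (E8 t))) =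
      bit (P (grid n (r ^ k) t)) := fun t => bit_congr (by rw [PV_iff hP e, he])
  simpa only [h2] using h1

section dist

variable {p : ℕ} {A : Type} [DecidableEq A] [NeZero p]

theorem third {T : Type} [Fintype T] (h : 3 ≤ Fintype.card T) (x y : T) : ∃ z, z ≠ x ∧ z ≠ y := by
  classical
  have h1 : ({x, y} : Finset T).card < (univ : Finset T).card := by
    rw [Finset.card_univ]
    exact (Finset.card_le_two).trans_lt (by omega)
  obtain ⟨z, -, hz⟩ := Finset.exists_mem_notMem_of_card_lt_card h1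
  rw [Finset.mem_insert, Finset.mem_singleton, not_or] at hz
  exact ⟨z, hz⟩

theorem two_of_common {V : Type} {G : SimpleGraph V} {u v w : V} (h1 : G.Adj u w)
    (h2 : G.Adj w v) : G.edist u v ≤ 2 := by
  refine (SimpleGraph.edist_triangle (v := w)).trans ?_
  rw [SimpleGraph.edist_eq_one_iff_adj.2 h1, SimpleGraph.edist_eq_one_iff_adj.2 h2]
  norm_num

theorem dist_tensor [Fintype A] (hp : 3 ≤ p) (hA : 3 ≤ Fintype.card A)
    (t : Bool × Bool × Bool) (ht : t.2.2 = true) (u v : ZMod p × A) :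
    (G2 A (E8 t)).edist u v ≤ 2 := by
  obtain ⟨s, x⟩ := u
  obtain ⟨s', x'⟩ := v
  obtain ⟨z, hz1, hz2⟩ := third (T := ZMod p) (by rwa [ZMod.card]) s s'
  obtain ⟨w, hw1, hw2⟩ := third hA x x'
  exact two_of_common (w := (z, w)) ((E8_adj t _ _ _ _).2 (Or.inr (Or.inr ⟨hz1.symm, hw1.symm, ht⟩)))
    ((E8_adj t _ _ _ _).2 (Or.inr (Or.inr ⟨hz2, hw2, ht⟩)))

theorem dist_rook (t : Bool × Bool × Bool) (h1 : t.1 = true) (h2 : t.2.1 = true)
    (u v : ZMod p × A) : (G2 A (E8 t)).edist u v ≤ 2 := by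
  obtain ⟨s, x⟩ := u
  obtain ⟨s', x'⟩ := v
  refine (SimpleGraph.edist_triangle (v := (s, x'))).trans ?_
  have e1 : (G2 A (E8 t)).edist (s, x) (s, x') ≤ 1 := by
    by_cases h : x = x'
    · subst h
      simp [SimpleGraph.edist_self]
    · exact (SimpleGraph.edist_eq_one_iff_adj.2 ((E8_adj t _ _ _ _).2 (Or.inl ⟨rfl, h, h1⟩))).le
  have e2 : (G2 A (E8 t)).edist (s, x') (s', x') ≤ 1 := by
    by_cases h : s = s'
    · subst h
      simp [SimpleGraph.edist_self]
    · exact (SimpleGraph.edist_eq_one_iff_adj.2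
        ((E8_adj t _ _ _ _).2 (Or.inr (Or.inl ⟨h, rfl, h2⟩)))).le
  refine (add_le_add e1 e2).trans ?_
  norm_num

end dist

/-- distances in the eight graphs on `Fin n` -/
theorem grid_dist {n p q : ℕ} (hn : n = p * q) (hp : 3 ≤ p) (hq : 3 ≤ q)
    (t : Bool × Bool × Bool) (ht : t.2.2 = true ∨ (t.1 = true ∧ t.2.1 = true)) (u v : Fin n) :
    (grid n q t).edist u v ≤ 2 := by
  have : NeZero p := ⟨by omega⟩
  obtain ⟨e, he⟩ := exists_equiv (p := p) hn (A := Fin q) (Fintype.card_fin q)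
  rw [← he t]
  obtain ⟨u, rfl⟩ := e.surjective u
  obtain ⟨v, rfl⟩ := e.surjective v
  rw [Pool.Agent.H512.BD.map_edist]
  rcases ht with ht | ⟨h1, h2⟩
  · exact dist_tensor hp (by rwa [Fintype.card_fin]) t ht u v
  · exact dist_rook t h1 h2 u v

theorem grid_b {n q : ℕ} {u v : Fin n} (h : (grid n q (true, false, false)).Reachable u v) :
    u.1 / q = v.1 / q :=
  Pool.Agent.H512.BD.const_reach (F := fun w : Fin n => w.1 / q) (fun _ _ h1 => by
    rcases h1 with ⟨h1, -⟩ | ⟨-, -, h1⟩ | ⟨-, -, h1⟩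
    · exact h1
    · cases h1
    · cases h1) h

theorem grid_d {n q : ℕ} {u v : Fin n} (h : (grid n q (false, true, false)).Reachable u v) :
    u.1 % q = v.1 % q :=
  Pool.Agent.H512.BD.const_reach (F := fun w : Fin n => w.1 % q) (fun _ _ h1 => by
    rcases h1 with ⟨-, -, h1⟩ | ⟨-, h1, -⟩ | ⟨-, -, h1⟩
    · cases h1
    · exact h1
    · cases h1) h

end Pool.Agent.H512.DT
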