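import Pool.Graph.R_seed8.TH669.KP.Orb

set_option autoImplicit false
set_option linter.unusedSectionVars false

/-!
MP_257582_lc. The vertex set is `ZMod p × A`; the group is generated by the translations of `A` and by
the product of a shift of `ZMod p` and an automorphism of `A` whose order is prime to `p`.
-/

namespace Pool.Agent.H512.DT

open Finset
open Pool.Agent.H119R2.Kp (GP PV)
open Pool.Agent.TH669.KP (GR GR_adj rel_orb sgn bit bit_pos bit_neg bit_congr)

/-- classes of nonzero differences up to sign -/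
abbrev CC (p : ℕ) : Type := {e : Sym2 (ZMod p) // ∃ d : ZMod p, d ≠ 0 ∧ e = s(d, -d)}

/-- the orbits of pairs -/
abbrev J2 (p : ℕ) : Type := Option (CC p × Bool)

/-- the class of a difference -/
def cl {p : ℕ} (d : ZMod p) (h : d ≠ 0) : CC p := ⟨s(d, -d), d, h, rfl⟩

theorem cl_eq_iff {p : ℕ} {d e : ZMod p} {h : d ≠ 0} {h' : e ≠ 0} :
    cl d h = cl e h' ↔ d = e ∨ d = -e := by
  unfold cl
  simp only [Subtype.mk.injEq, Sym2.eq_iff]
  constructor
  · rintro (⟨h1, -⟩ | ⟨h1, -⟩)
    · exact Or.inl h1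
    · exact Or.inr h1
  · rintro (h1 | h1)
    · exact Or.inl ⟨h1, by rw [h1]⟩
    · exact Or.inr ⟨h1, by rw [h1, neg_neg]⟩

theorem cl_exists {p : ℕ} (e : CC p) : ∃ d, ∃ h : d ≠ 0, e = cl d h := by
  obtain ⟨e, d, hd, rfl⟩ := e
  exact ⟨d, hd, rfl⟩

variable {p : ℕ} {A : Type} [DecidableEq A]

/-- the orbit of a pair -/
def orb (u v : ZMod p × A) : Option (J2 p) :=
  if h : u.1 - v.1 = 0 then (if u.2 = v.2 then none else some none)
  else some (some (cl (u.1 - v.1) h, decide (u.2 = v.2)))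

theorem orb_self (v : ZMod p × A) : orb v v = none := by
  simp [orb]

theorem orb_same {s : ZMod p} {x y : A} (h : x ≠ y) : orb (s, x) (s, y) = some none := by
  simp [orb, h]

theorem orb_diff {s t : ZMod p} (h : s - t ≠ 0) (x y : A) :
    orb (s, x) (t, y) = some (some (cl (s - t) h, decide (x = y))) := by
  simp [orb, h]

theorem orb_symm (u v : ZMod p × A) : orb u v = orb v u := by
  obtain ⟨s, x⟩ := u
  obtain ⟨t, y⟩ := v
  by_cases h : s = t
  · subst h
    by_cases hxy : x = y
    · subst hxy; rfl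
    · rw [orb_same hxy, orb_same (Ne.symm hxy)]
  · rw [orb_diff (sub_ne_zero.2 h), orb_diff (sub_ne_zero.2 (Ne.symm h))]
    have : cl (s - t) (sub_ne_zero.2 h) = cl (t - s) (sub_ne_zero.2 (Ne.symm h)) :=
      cl_eq_iff.2 (Or.inr (by ring))
    rw [this]
    simp only [eq_comm]

theorem orb_ne_none (u v : ZMod p × A) (h : u ≠ v) : orb u v ≠ none := by
  obtain ⟨s, x⟩ := u
  obtain ⟨t, y⟩ := v
  by_cases h1 : s = t
  · subst h1
    have hxy : x ≠ y := fun h2 => h (by rw [h2])
    rw [orb_same hxy]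
    simp
  · rw [orb_diff (sub_ne_zero.2 h1)]
    simp

variable [AddCommGroup A]

theorem orb_exists [Nontrivial A] (j : J2 p) : ∃ u v : ZMod p × A, orb u v = some j := by
  obtain ⟨a, ha⟩ := exists_ne (0 : A)
  rcases j with _ | ⟨e, b⟩
  · exact ⟨(0, a), (0, 0), orb_same ha⟩
  · obtain ⟨d, h, rfl⟩ := cl_exists e
    cases b
    · refine ⟨(d, a), (0, 0), ?_⟩
      rw [orb_diff (by simpa using h), decide_eq_false ha]
      simp only [sub_zero]
    · refine ⟨(d, 0), (0, 0), ?_⟩
      rw [orb_diff (by simpa using h), decide_eq_true rfl]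
      simp only [sub_zero]

/-- translation -/
def tr (a : A) : Equiv.Perm (ZMod p × A) := Equiv.prodCongr (Equiv.refl _) (Equiv.addRight a)

/-- shift and automorphism -/
def sc (c : A ≃+ A) : Equiv.Perm (ZMod p × A) :=
  Equiv.prodCongr (Equiv.addRight 1) c.toEquiv

theorem tr_apply (a : A) (s : ZMod p) (x : A) : tr a (s, x) = (s, x + a) := rfl

theorem sc_apply (c : A ≃+ A) (s : ZMod p) (x : A) : sc c (s, x) = (s + 1, c x) := rfl

theorem sc_pow (c : A ≃+ A) (k : ℕ) (s : ZMod p) (x : A) :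
    (sc c ^ k) (s, x) = (s + k, c^[k] x) := by
  induction k with
  | zero => simp
  | succ k ih =>
    rw [pow_succ', Equiv.Perm.mul_apply, ih, sc_apply, Function.iterate_succ_apply']
    push_cast
    rw [add_assoc]

theorem tr_comm (a b : A) : tr (p := p) a * tr b = tr b * tr a := by
  ext v : 1
  obtain ⟨s, x⟩ := v
  simp only [Equiv.Perm.mul_apply, tr_apply]
  rw [add_right_comm]

theorem tr_pow (a : A) (k : ℕ) (s : ZMod p) (x : A) :
    (tr a ^ k) (s, x) = (s, x + k • a) := by
  induction k with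
  | zero => simp
  | succ k ih =>
    rw [pow_succ', Equiv.Perm.mul_apply, ih, tr_apply, succ_nsmul, add_assoc]

theorem sc_conj (c : A ≃+ A) (a : A) :
    (sc (p := p) c)⁻¹ * tr a * sc c = tr (c.symm a) := by
  rw [mul_assoc, inv_mul_eq_iff_eq_mul]
  ext v : 1
  obtain ⟨s, x⟩ := v
  simp only [Equiv.Perm.mul_apply, tr_apply, sc_apply, map_add, AddEquiv.apply_symm_apply]

theorem orb_tr (a : A) (u v : ZMod p × A) : orb (tr a u) (tr a v) = orb u v := by
  obtain ⟨s, x⟩ := u
  obtain ⟨t, y⟩ := v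
  rw [tr_apply, tr_apply]
  simp only [orb, add_left_inj]

theorem orb_sc (c : A ≃+ A) (u v : ZMod p × A) : orb (sc c u) (sc c v) = orb u v := by
  obtain ⟨s, x⟩ := u
  obtain ⟨t, y⟩ := v
  rw [sc_apply, sc_apply]
  simp only [orb, add_sub_add_right_eq_sub, EmbeddingLike.apply_eq_iff_eq]

/-- the group -/
abbrev Gs (c : A ≃+ A) : Subgroup (Equiv.Perm (ZMod p × A)) :=
  Subgroup.closure (insert (sc c) (Set.range tr))

theorem tr_mem (c : A ≃+ A) (a : A) : tr a ∈ Gs (p := p) c :=
  Subgroup.subset_closure (Set.mem_insert_of_mem _ (Set.mem_range_self a))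

theorem sc_mem (c : A ≃+ A) : sc c ∈ Gs (p := p) c :=
  Subgroup.subset_closure (Set.mem_insert _ _)

theorem iter_mod {c : A ≃+ A} {N : ℕ} (hN : ∀ x, c^[N] x = x) (k : ℕ) (x : A) :
    c^[k % N] x = c^[k] x := by
  conv_rhs => rw [← Nat.mod_add_div k N]
  rw [Function.iterate_add_apply]
  have : ∀ j x, c^[N * j] x = x := by
    intro j
    induction j with
    | zero => intro x; rfl
    | succ j ih =>
      intro x
      rw [Nat.mul_succ, Function.iterate_add_apply, hN, ih]
  rw [this]

/-- a pair of points is moved to every pair with the same differences -/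
theorem move {c : A ≃+ A} {N : ℕ} (hN : ∀ x, c^[N] x = x) (hpN : Nat.Coprime p N)
    (htr : ∀ x y : A, x ≠ 0 → y ≠ 0 → ∃ k : ℕ, c^[k] x = y) [NeZero p]
    {s t s' t' : ZMod p} (hst : s - t = s' - t') {x y x' y' : A} (h : x = y ↔ x' = y') :
    ∃ g ∈ Gs (p := p) c, g (s, x) = (s', x') ∧ g (t, y) = (t', y') := by
  obtain ⟨k0, hk0⟩ : ∃ k : ℕ, c^[k] (x - y) = x' - y' := by
    by_cases hxy : x = y
    · refine ⟨0, ?_⟩
      rw [sub_eq_zero.2 hxy, sub_eq_zero.2 (h.1 hxy)]
      rfl
    · exact htr _ _ (sub_ne_zero.2 hxy) (sub_ne_zero.2 fun h1 => hxy (h.2 h1))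
  obtain ⟨k, hk1, hk2⟩ := Nat.chineseRemainder hpN (s' - s).val k0
  have hks : s + (k : ZMod p) = s' := by
    have : (k : ZMod p) = ((s' - s).val : ZMod p) := (ZMod.natCast_eq_natCast_iff _ _ _).2 hk1
    rw [this, ZMod.natCast_zmod_val]
    ring
  have hkx : c^[k] (x - y) = x' - y' := by
    rw [← hk0, ← iter_mod hN k, ← iter_mod hN k0]
    have : k % N = k0 % N := hk2
    rw [this]
  have hsub : c^[k] x - c^[k] y = x' - y' := by
    rw [← hkx]
    have : ∀ k : ℕ, ∀ a b : A, c^[k] (a - b) = c^[k] a - c^[k] b := by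
      intro k
      induction k with
      | zero => intro a b; rfl
      | succ k ih =>
        intro a b
        rw [Function.iterate_succ_apply, Function.iterate_succ_apply,
          Function.iterate_succ_apply, map_sub, ih]
    rw [this]
  refine ⟨tr (x' - c^[k] x) * sc c ^ k,
    Subgroup.mul_mem _ (tr_mem c _) (Subgroup.pow_mem _ (sc_mem c) k), ?_, ?_⟩
  · rw [Equiv.Perm.mul_apply, sc_pow, tr_apply, hks]
    congr 1
    abel
  · rw [Equiv.Perm.mul_apply, sc_pow, tr_apply]
    have e1 : t + (k : ZMod p) = t' := by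
      have : t = s - (s' - t') := by rw [← hst]; ring
      rw [this, ← hks]
      ring
    rw [e1]
    congr 1
    have : y' = x' - (x' - y') := by abel
    rw [this, ← hsub]
    abel

theorem orb_trans {c : A ≃+ A} {N : ℕ} (hN : ∀ x, c^[N] x = x) (hpN : Nat.Coprime p N)
    (htr : ∀ x y : A, x ≠ 0 → y ≠ 0 → ∃ k : ℕ, c^[k] x = y) [NeZero p]
    (j : J2 p) (u v u' v' : ZMod p × A) (h : orb u v = some j) (h' : orb u' v' = some j) :
    ∃ g ∈ Gs (p := p) c, (g u = u' ∧ g v = v') ∨ (g u = v' ∧ g v = u') := by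
  obtain ⟨s, x⟩ := u
  obtain ⟨t, y⟩ := v
  obtain ⟨s', x'⟩ := u'
  obtain ⟨t', y'⟩ := v'
  by_cases hst : s = t
  · subst hst
    by_cases hxy : x = y
    · subst hxy
      rw [orb_self] at h
      cases h
    rw [orb_same hxy] at h
    simp only [Option.some.injEq] at h
    subst h
    by_cases hst' : s' = t'
    · subst hst'
      by_cases hxy' : x' = y'
      · subst hxy'
        rw [orb_self] at h'
        cases h'
      obtain ⟨g, hg, h1, h2⟩ := move (s := s) (t := s) (s' := s') (t' := s') hN hpN htr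
        (by simp) (x := x) (y := y) (x' := x') (y' := y') (by simp [hxy, hxy'])
      exact ⟨g, hg, Or.inl ⟨h1, h2⟩⟩
    · rw [orb_diff (sub_ne_zero.2 hst')] at h'
      simp at h'
  · rw [orb_diff (sub_ne_zero.2 hst)] at h
    simp only [Option.some.injEq] at h
    subst h
    by_cases hst' : s' = t'
    · subst hst'
      by_cases hxy' : x' = y'
      · subst hxy'
        rw [orb_self] at h'
        cases h'
      rw [orb_same hxy'] at h'
      simp at h'
    · rw [orb_diff (sub_ne_zero.2 hst')] at h'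
      simp only [Option.some.injEq, Prod.mk.injEq, decide_eq_decide, cl_eq_iff] at h'
      obtain ⟨h1, h2⟩ := h'
      rcases h1 with h1 | h1
      · obtain ⟨g, hg, h3, h4⟩ := move (s := s) (t := t) (s' := s') (t' := t') hN hpN htr
          h1.symm h2.symm
        exact ⟨g, hg, Or.inl ⟨h3, h4⟩⟩
      · obtain ⟨g, hg, h3, h4⟩ := move (s := s) (t := t) (s' := t') (t' := s') hN hpN htr
          (by rw [← neg_sub s' t', h1, neg_neg]) (x := x) (y := y) (x' := y') (y' := x')
          (by rw [← h2]; exact eq_comm)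
        exact ⟨g, hg, Or.inr ⟨h3, h4⟩⟩

/-- the graph of a configuration -/
abbrev G2 (A : Type) [DecidableEq A] (χ : J2 p → Bool) : SimpleGraph (ZMod p × A) :=
  GR (orb (A := A)) orb_symm orb_self χ

theorem relation2 {n d r : ℕ} [NeZero p] [Fact r.Prime] [Fintype A] [Nontrivial A]
    (htors : ∀ x : A, r • x = 0) {c : A ≃+ A} {N : ℕ} (hN : ∀ x, c^[N] x = x)
    (hpN : Nat.Coprime p N) (htr : ∀ x y : A, x ≠ 0 → y ≠ 0 → ∃ k : ℕ, c^[k] x = y)
    {P : SimpleGraph (Fin n) → Prop} (hP : GP n d P) (hV : Fintype.card (ZMod p × A) = n)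
    (hd : d < n.choose 2) :
    ∑ χ : J2 p → Bool, sgn χ * bit (PV P (ZMod p × A) (G2 A χ)) = 0 := by
  classical
  have h := rel_orb hP hV r (fun a : A => tr (p := p) a) (sc c) tr_comm (fun a => by
      ext v : 1
      obtain ⟨s, x⟩ := v
      rw [tr_pow, htors, add_zero]
      rfl) (fun a => by
      rw [sc_conj]
      exact Subgroup.subset_closure (Set.mem_range_self _))
    (orb (A := A)) orb_symm orb_self orb_ne_none (fun a u v => orb_tr a u v) (fun u v => orb_sc c u v)
    orb_exists (fun j u v u' v' h h' => orb_trans hN hpN htr j u v u' v' h h') hd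
  convert h using 1

end Pool.Agent.H512.DT
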