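import Pool.Agent.H512.DT.Dist

set_option autoImplicit false
set_option linter.unusedSectionVars false

/-!
MP_257582_lc. A generator of the units; graphs on the first vertices.
-/

namespace Pool.Agent.H512.DT

open Finset

theorem prim {p l a : ℕ} [Fact p.Prime] [Fact l.Prime] (hpl : p - 1 = 2 * l ^ a) :
    ∃ u : (ZMod p)ˣ, u ^ l ^ a = -1 ∧ ∀ z z' : ZMod p, z ≠ z' → Near u z z' := by
  have hl : l.Prime := Fact.out
  have hla : 1 ≤ l ^ a := Nat.one_le_pow _ _ hl.pos
  obtain ⟨u, hu⟩ := IsCyclic.exists_generator (α := (ZMod p)ˣ)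
  have hord : orderOf u = p - 1 := by
    rw [orderOf_eq_card_of_forall_mem_zpowers hu, Nat.card_eq_fintype_card, ZMod.card_units]
  refine ⟨u, ?_, ?_⟩
  · have h1 : (u ^ (l ^ a)) ^ 2 = 1 := by
      rw [← pow_mul, mul_comm, ← hpl, ← hord, pow_orderOf_eq_one]
    have h2 : u ^ (l ^ a) ≠ 1 := by
      intro h
      have := orderOf_dvd_of_pow_eq_one h
      have := Nat.le_of_dvd (by omega) this
      omega
    have h3 : ((u ^ (l ^ a) : (ZMod p)ˣ) : ZMod p) ^ 2 = 1 := by
      rw [← Units.val_pow_eq_pow_val, h1]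
      rfl
    rw [sq] at h3
    rcases mul_self_eq_one_iff.1 h3 with h4 | h4
    · exact absurd (Units.ext (by simpa using h4)) h2
    · exact Units.ext (by simpa using h4)
  · intro z z' hz
    have h1 := hu (Units.mk0 (z - z') (sub_ne_zero.2 hz))
    rw [← mem_powers_iff_mem_zpowers, Submonoid.mem_powers_iff] at h1
    obtain ⟨j, hj⟩ := h1
    refine ⟨j, Or.inl ?_⟩
    have h2 := congrArg Units.val hj
    rw [Units.val_pow_eq_pow_val, Units.val_mk0] at h2
    rw [h2]
    ring

/-- graphs all edges of which are in the first `m` vertices, with small distances between them -/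
theorem first_tame {n m D : ℕ} {G : SimpleGraph (Fin n)} (h : ∀ u v, G.Adj u v → u.1 < m ∧ v.1 < m)
    (hD : ∀ u v : Fin n, u.1 < m → v.1 < m → G.edist u v ≤ (D : ℕ∞)) (u v : Fin n)
    (huv : G.Reachable u v) : G.edist u v ≤ (D : ℕ∞) := by
  rcases iso_reach h huv with rfl | ⟨h1, h2⟩
  · simp [SimpleGraph.edist_self]
  · exact hD u v h1 h2

theorem first_card {n m D : ℕ} (hmn : m ≤ n) {G : SimpleGraph (Fin n)}
    (hD : ∀ u v : Fin n, u.1 < m → v.1 < m → G.edist u v ≤ (D : ℕ∞)) (u : Fin n) (hu : u.1 < m) :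
    m ≤ Nat.card {w // G.Reachable u w} := by
  have h : Nat.card (Fin m) ≤ Nat.card {w // G.Reachable u w} := by
    refine Nat.card_le_card_of_injective
      (fun i : Fin m => (⟨⟨i.1, i.2.trans_le hmn⟩, ?_⟩ : {w // G.Reachable u w})) ?_
    · exact SimpleGraph.edist_ne_top_iff_reachable.1
        (ne_top_of_le_ne_top (ENat.natCast_ne_top D) (hD u ⟨i.1, i.2.trans_le hmn⟩ hu i.2))
    · intro i j hij
      simp only [Subtype.mk.injEq, Fin.mk.injEq] at hij
      exact Fin.ext hij
  rwa [Nat.card_eq_fintype_card (α := Fin m), Fintype.card_fin] at h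

theorem star_dist {n : ℕ} (u v : Fin n) : (star n).edist u v ≤ ((2 : ℕ) : ℕ∞) := by
  by_cases huv : u = v
  · subst huv
    simp [SimpleGraph.edist_self]
  have hn : n ≠ 0 := by
    rintro rfl
    exact u.elim0
  let c : Fin n := ⟨n - 1, by omega⟩
  have hc : c.1 + 1 = n := by
    show n - 1 + 1 = n
    omega
  by_cases h1 : u = c
  · have h3 : (star n).Adj u v := ⟨huv, Or.inl (by rw [h1]; exact hc)⟩
    rw [SimpleGraph.edist_eq_one_iff_adj.2 h3]
    norm_num
  · by_cases h2 : v = c
    · have h3 : (star n).Adj u v := ⟨huv, Or.inr (by rw [h2]; exact hc)⟩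
      rw [SimpleGraph.edist_eq_one_iff_adj.2 h3]
      norm_num
    · have h3 : (star n).Adj u c := ⟨h1, Or.inr hc⟩
      have h4 : (star n).Adj c v := ⟨fun h => h2 h.symm, Or.inl hc⟩
      exact_mod_cast two_of_common h3 h4

end Pool.Agent.H512.DT
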